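import Pool.Agent.H494R3.LD.Defs

set_option autoImplicit false

/-!
Minimal projections in C*-algebras of real rank zero.
-/

namespace Pool.Agent.H494R3.LD

open scoped ComplexOrder

section
variable {U : Type*} [CStarAlgebra U]

theorem key_unital (b y : U) (N : ℝ) (hN : 0 < N) (s : U) (hb : b = star s * s)
    (hbN : N ≤ ‖b‖) (hy : IsSelfAdjoint y) (hf : (spectrum ℝ y).Finite) (hyb : ‖b - y‖ ≤ N / 4) :
    ∃ q r : U, q ≠ 0 ∧ q * q = q ∧ star q = q ∧ star r = r ∧ r * (q * b * q) = q ∧ q * r = r ∧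
      r * q = r := by
  let _ := CStarAlgebra.spectralOrder U
  have _ := CStarAlgebra.spectralOrderedRing U
  have hb0 : 0 ≤ b := by rw [hb]; exact star_mul_self_nonneg s
  have hbs : IsSelfAdjoint b := IsSelfAdjoint.of_nonneg hb0
  obtain ⟨χ, hχ⟩ : ∃ χ : ℝ → ℝ, χ = fun t => if N / 2 ≤ t then 1 else 0 := ⟨_, rfl⟩
  have hc : ∀ f : ℝ → ℝ, ContinuousOn f (spectrum ℝ y) := fun f => hf.continuousOn f
  obtain ⟨q, hq⟩ : ∃ q : U, q = cfc χ y := ⟨_, rfl⟩
  have hqq : q * q = q := by
    rw [hq, ← cfc_mul χ χ y (hc _) (hc _)]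
    congr 1
    funext t
    rw [hχ]
    by_cases h : N / 2 ≤ t
    · simp [h]
    · simp [h]
  have hqs : star q = q := by
    rw [hq]
    exact cfc_predicate χ y
  have hid : cfc (fun t : ℝ => t) y = y := cfc_id' ℝ y
  have h1 : (N / 2) • q ≤ q * y * q := by
    have e1 : q * y * q = cfc (fun t => χ t * t * χ t) y := by
      rw [cfc_mul (fun t => χ t * t) χ y (hc _) (hc _), cfc_mul χ (fun t => t) y (hc _) (hc _),
        hid, hq]
    have e2 : (N / 2) • q = cfc (fun t => (N / 2) * χ t) y := by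
      rw [hq, ← cfc_smul (N / 2) χ y (hc _)]
      rfl
    rw [e1, e2]
    apply cfc_mono _ (hc _) (hc _)
    intro t _
    rw [hχ]
    by_cases h : N / 2 ≤ t
    · simp [h]
    · simp [h]
  have h2 : y ≤ algebraMap ℝ U (N / 2) + y * q := by
    have e1 : algebraMap ℝ U (N / 2) + y * q = cfc (fun t => N / 2 + t * χ t) y := by
      rw [cfc_const_add (N / 2) (fun t => t * χ t) y (hc _),
        cfc_mul (fun t => t) χ y (hc _) (hc _), hid, hq]
    rw [e1]
    conv_lhs => rw [← hid]
    apply cfc_mono _ (hc _) (hc _)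
    intro t _
    rw [hχ]
    by_cases h : N / 2 ≤ t
    · simp [h]; linarith
    · simp [h]; linarith
  have hd : IsSelfAdjoint (b - y) := hbs.sub hy
  have h3 : b - y ≤ algebraMap ℝ U (N / 4) :=
    (IsSelfAdjoint.le_algebraMap_norm_self hd).trans (algebraMap_mono U hyb)
  have h4 : y - b ≤ algebraMap ℝ U (N / 4) := by
    have hyb' : ‖y - b‖ ≤ N / 4 := by rw [norm_sub_rev]; exact hyb
    exact (IsSelfAdjoint.le_algebraMap_norm_self (hy.sub hbs)).trans (algebraMap_mono U hyb')
  have hq0 : q ≠ 0 := by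
    intro h0
    rw [h0, mul_zero, add_zero] at h2
    have h5 : b ≤ algebraMap ℝ U (3 * N / 4) := by
      have : algebraMap ℝ U (3 * N / 4) = algebraMap ℝ U (N / 4) + algebraMap ℝ U (N / 2) := by
        rw [← map_add]; congr 1; ring
      rw [this]
      calc b = (b - y) + y := by abel
        _ ≤ _ := add_le_add h3 h2
    have h6 := (CStarAlgebra.norm_le_iff_le_algebraMap b (r := 3 * N / 4) (by linarith) hb0).2 h5
    linarith
  obtain ⟨w, hw⟩ : ∃ w : U, w = q * b * q + (N / 4) • (1 - q) := ⟨_, rfl⟩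
  have hwle : algebraMap ℝ U (N / 4) ≤ w := by
    have e1 : q * (y - b) * q ≤ q * algebraMap ℝ U (N / 4) * q := by
      have := star_left_conjugate_le_conjugate h4 q
      rwa [hqs] at this
    have e2 : q * algebraMap ℝ U (N / 4) * q = (N / 4) • q := by
      rw [Algebra.algebraMap_eq_smul_one, mul_smul_comm, smul_mul_assoc, mul_one, hqq]
    have e3 : (N / 2) • q - (N / 4) • q ≤ q * b * q := by
      have e4 : q * (y - b) * q = q * y * q - q * b * q := by noncomm_ring
      rw [e4, e2] at e1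
      calc (N / 2) • q - (N / 4) • q ≤ q * y * q - (N / 4) • q := sub_le_sub_right h1 _
        _ ≤ q * b * q := by
          rw [sub_le_iff_le_add] at e1 ⊢
          rw [add_comm]; exact e1
    have e5 : algebraMap ℝ U (N / 4) = ((N / 2) • q - (N / 4) • q) + (N / 4) • (1 - q) := by
      rw [Algebra.algebraMap_eq_smul_one, smul_sub, ← sub_smul]
      have : N / 2 - N / 4 = N / 4 := by ring
      rw [this]; abel
    rw [e5, hw]
    exact add_le_add_left e3 _
  have hpos : IsStrictlyPositive (algebraMap ℝ U (N / 4)) := by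
    rw [IsStrictlyPositive.iff_of_unital]
    refine ⟨?_, ?_⟩
    · rw [Algebra.algebraMap_eq_smul_one]
      exact smul_nonneg (by linarith) zero_le_one
    · exact (IsUnit.mk0 (N / 4) (by linarith)).map (algebraMap ℝ U)
  have hwu : IsUnit w := CStarAlgebra.isUnit_of_le _ hwle hpos
  obtain ⟨v, hv⟩ := hwu
  have hqw : q * w = q * b * q := by
    rw [hw, mul_add, mul_smul_comm, mul_sub, mul_one, hqq, sub_self, smul_zero, add_zero,
      ← mul_assoc, ← mul_assoc, hqq]
  have hwq : w * q = q * b * q := by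
    rw [hw, add_mul, smul_mul_assoc, sub_mul, one_mul, hqq, sub_self, smul_zero, add_zero,
      mul_assoc, hqq]
  have hcomm : q * (v⁻¹ : Uˣ) = (v⁻¹ : Uˣ) * q := by
    have h7 : Commute q (v : U) := by
      show q * (v : U) = v * q
      rw [hv, hqw, hwq]
    exact h7.units_inv_right
  have hws : star w = w := by
    rw [hw, star_add, star_mul, star_mul, star_smul, star_sub, star_one, hqs, hbs.star_eq,
      star_trivial, mul_assoc]
  have hvs : star ((v⁻¹ : Uˣ) : U) = (v⁻¹ : Uˣ) := by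
    have h8 : star ((v⁻¹ : Uˣ) : U) * w = 1 := by
      conv_lhs => rw [← hws]
      rw [← star_mul, ← hv, Units.mul_inv, star_one]
    calc star ((v⁻¹ : Uˣ) : U) = star ((v⁻¹ : Uˣ) : U) * (w * (v⁻¹ : Uˣ)) := by
          rw [← hv, Units.mul_inv, mul_one]
      _ = (v⁻¹ : Uˣ) := by rw [← mul_assoc, h8, one_mul]
  refine ⟨q, q * (v⁻¹ : Uˣ), hq0, hqq, hqs, ?_, ?_, ?_, ?_⟩
  · rw [star_mul, hvs, hqs, hcomm]
  · rw [← hwq, mul_assoc, ← hv, ← mul_assoc ((v⁻¹ : Uˣ) : U), Units.inv_mul, one_mul, hqq]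
  · rw [← mul_assoc, hqq]
  · rw [mul_assoc, ← hcomm, ← mul_assoc, hqq]

end

end Pool.Agent.H494R3.LD
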