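import Pool.Agent.H494R3.LD.C7

set_option autoImplicit false

/-!
The diagram lifts by regular rings.
-/

namespace Pool.Agent.H494R3.LD

noncomputable def vM : Fin 3 → KK := fun i => vx (Fin.castLE (by norm_num) i)

noncomputable def vL : Fin 3 → KK := ![0, vx 3, vx 4]

theorem vM_inj : Function.Injective vM := by
  intro i j h
  have := vx_inj h
  exact Fin.castLE_injective _ this

theorem vL_inj : Function.Injective vL := by
  have h3 := vx_ne 3
  have h4 := vx_ne 4
  have h34 : vx 3 ≠ vx 4 := fun h => absurd (vx_inj h) (by decide)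
  intro i j h
  fin_cases i <;> fin_cases j
  · rfl
  · exact absurd h.symm h3
  · exact absurd h.symm h4
  · exact absurd h h3
  · rfl
  · exact absurd h h34
  · exact absurd h h4
  · exact absurd h.symm h34
  · rfl

noncomputable def mM : Matrix (Fin 3) (Fin 3) KK := (Matrix.vandermonde vM).transpose
noncomputable def mL : Matrix (Fin 3) (Fin 3) KK := (Matrix.vandermonde vL).transpose

theorem mM_unit : IsUnit mM.det := by
  unfold mM
  rw [Matrix.det_transpose, isUnit_iff_ne_zero]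
  exact Matrix.det_vandermonde_ne_zero_iff.2 vM_inj

theorem mL_unit : IsUnit mL.det := by
  unfold mL
  rw [Matrix.det_transpose, isUnit_iff_ne_zero]
  exact Matrix.det_vandermonde_ne_zero_iff.2 vL_inj

theorem mM_map : mM.map sg = mM.submatrix id (Equiv.addRight (1 : Fin 3)) := by
  ext r i
  show sg (vM i ^ (r : ℕ)) = vM (i + 1) ^ (r : ℕ)
  rw [map_pow]
  congr 1
  fin_cases i
  · exact sg_vx 0
  · exact sg_vx 1
  · exact sg_vx 2

theorem mL_map : mL.map sg = mL.submatrix id (Equiv.swap (1 : Fin 3) 2) := by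
  ext r i
  show sg (vL i ^ (r : ℕ)) = vL (Equiv.swap 1 2 i) ^ (r : ℕ)
  rw [map_pow]
  congr 1
  fin_cases i
  · exact map_zero sg
  · have e2 : Equiv.swap (1 : Fin 3) 2 1 = 2 := by decide
    show sg (vx 3) = vL (Equiv.swap 1 2 1)
    rw [e2]
    exact sg_vx 3
  · have e3 : Equiv.swap (1 : Fin 3) 2 2 = 1 := by decide
    show sg (vx 4) = vL (Equiv.swap 1 2 2)
    rw [e3]
    exact sg_vx 4

def RT : Ty → Type
  | Ty.B => Rsd 1 1 ℚ
  | Ty.M => Rsd 3 1 KK
  | Ty.L => Rsd 3 1 KK
  | Ty.T => Rsd 1 3 KK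
  | Ty.Z => Rsd 0 1 KK

noncomputable instance rtRing : ∀ a : Ty, Ring (RT a)
  | Ty.B => inferInstanceAs (Ring (Rsd 1 1 ℚ))
  | Ty.M => inferInstanceAs (Ring (Rsd 3 1 KK))
  | Ty.L => inferInstanceAs (Ring (Rsd 3 1 KK))
  | Ty.T => inferInstanceAs (Ring (Rsd 1 3 KK))
  | Ty.Z => inferInstanceAs (Ring (Rsd 0 1 KK))

noncomputable def rkT : ∀ (a : Ty) (k : ℕ), Matrix (Fin k) (Fin k) (RT a) → XM a
  | Ty.B, k => rk (s := 1) (d := 1) (K := ℚ) k
  | Ty.M, k => rk (s := 3) (d := 1) (K := KK) k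
  | Ty.L, k => rk (s := 3) (d := 1) (K := KK) k
  | Ty.T, k => rk (s := 1) (d := 3) (K := KK) k
  | Ty.Z, k => rk (s := 0) (d := 1) (K := KK) k

noncomputable def rMap : ∀ a b : Ty, RT a →ₙ+* RT b
  | Ty.B, Ty.B => NonUnitalRingHom.id _
  | Ty.B, Ty.M => rBM
  | Ty.B, Ty.L => rBM
  | Ty.B, Ty.T => (rMT mM mM_unit).comp rBM
  | Ty.M, Ty.M => NonUnitalRingHom.id _
  | Ty.M, Ty.T => rMT mM mM_unit
  | Ty.L, Ty.L => NonUnitalRingHom.id _
  | Ty.L, Ty.T => rMT mL mL_unit
  | Ty.T, Ty.T => NonUnitalRingHom.id _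
  | Ty.Z, Ty.Z => NonUnitalRingHom.id _
  | _, _ => 0

noncomputable def rTw : ∀ a : Ty, RT a →ₙ+* RT a
  | Ty.B => NonUnitalRingHom.id _
  | Ty.M => rG (fun j => j + 2)
  | Ty.L => rG (Equiv.swap 1 2)
  | Ty.T => rGT
  | Ty.Z => NonUnitalRingHom.id _

theorem RZ_eq (x y : RT Ty.Z) : x = y := by
  funext i
  exact i.elim0

theorem rMap_id (a : Ty) (x : RT a) : rMap a a x = x := by
  cases a <;> rfl

theorem rMap_BLT (x : Rsd 1 1 ℚ) :
    rMT mL mL_unit (rBM x) = rMT mM mM_unit (rBM x) := by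
  rw [rMT_rBM, rMT_rBM]

theorem rMap_comp (a b c : Ty) (h : tle a b = true) (h' : tle b c = true) (x : RT a) :
    rMap b c (rMap a b x) = rMap a c x := by
  cases c
  case Z => exact RZ_eq _ _
  all_goals
    cases b <;> (try exact absurd h' (by decide)) <;> cases a <;>
      (try exact absurd h (by decide)) <;> (try rfl)
  exact rMap_BLT x

theorem rTw_rMap (a b : Ty) (h : tle a b = true) (x : RT a) :
    rTw b (rMap a b x) = rMap a b (rTw a x) := by
  have hM : ∀ x : Rsd 3 1 KK, rGT (rMT mM mM_unit x) = rMT mM mM_unit (rG (fun j => j + 2) x) :=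
    rG_rMT mM mM_unit (Equiv.addRight (1 : Fin 3)) mM_map (fun j => j + 2) (by decide)
  have hL : ∀ x : Rsd 3 1 KK,
      rGT (rMT mL mL_unit x) = rMT mL mL_unit (rG (Equiv.swap 1 2) x) :=
    rG_rMT mL mL_unit (Equiv.swap (1 : Fin 3) 2) mL_map (Equiv.swap 1 2) (by decide)
  cases b
  case Z => exact RZ_eq _ _
  all_goals
    cases a <;> (try exact absurd h (by decide)) <;> (try rfl)
  · exact rG_rBM _ x
  · exact rG_rBM _ x
  · exact (hM (rBM x)).trans (congrArg (rMT mM mM_unit) (rG_rBM _ x))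
  · exact hM x
  · exact hL x

theorem idem_map {R S : Type} [NonUnitalRing R] [NonUnitalRing S] (f : R →ₙ+* S) {k : ℕ}
    {E : Matrix (Fin k) (Fin k) R} (hE : E * E = E) : E.map f * E.map f = E.map f := by
  rw [← Matrix.map_mul, hE]

theorem rkT_rMap (a b : Ty) (h : tle a b = true) (k : ℕ) (E : Matrix (Fin k) (Fin k) (RT a))
    (hE : E * E = E) : rkT b k (E.map (rMap a b)) = nMap a b (rkT a k E) := by
  cases b
  case Z => exact XZ_eq _ _
  all_goals
    cases a <;> (try exact absurd h (by decide)) <;> (try rfl)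
  · exact rk_rBM E hE
  · exact rk_rBM E hE
  · have h1 := rk_rMT mM mM_unit (E.map rBM) (idem_map rBM hE)
    exact h1.trans (congrArg nMT (rk_rBM E hE))
  · exact rk_rMT mM mM_unit E hE
  · exact rk_rMT mL mL_unit E hE

theorem rkT_rTw (a : Ty) (k : ℕ) (E : Matrix (Fin k) (Fin k) (RT a))
    (hE : E * E = E) : rkT a k (E.map (rTw a)) = nG a (rkT a k E) := by
  cases a
  · rfl
  · exact rk_rG _ E hE
  · exact rk_rG _ E hE
  · exact rk_rGT E hE
  · rfl

noncomputable def rF (p q : PP) : RT (ty p) →ₙ+* RT (ty q) :=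
  if tw p q = true then (rTw (ty q)).comp (rMap (ty p) (ty q)) else rMap (ty p) (ty q)

theorem rF_eq (p q : PP) (x : RT (ty p)) :
    rF p q x = Fn (X := RT) (fun a b => rMap a b) (fun a => rTw a) p q x := by
  unfold rF Fn
  split_ifs <;> rfl

theorem reg_T (a : Ty) (x : RT a) : ∃ y : RT a, x * y * x = x := by
  cases a
  · exact rsd_reg (s := 1) (d := 1) (K := ℚ) x
  · exact rsd_reg (s := 3) (d := 1) (K := KK) x
  · exact rsd_reg (s := 3) (d := 1) (K := KK) x
  · exact rsd_reg (s := 1) (d := 3) (K := KK) x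
  · exact rsd_reg (s := 0) (d := 1) (K := KK) x

theorem V_T (a : Ty) : IsVRing (RT a) (XM a) (rkT a) := by
  cases a
  · exact rsd_V (s := 1) (d := 1) (K := ℚ) (by norm_num)
  · exact rsd_V (s := 3) (d := 1) (K := KK) (by norm_num)
  · exact rsd_V (s := 3) (d := 1) (K := KK) (by norm_num)
  · exact rsd_V (s := 1) (d := 3) (K := KK) (by norm_num)
  · exact rsd_V (s := 0) (d := 1) (K := KK) (by norm_num)

/-- the diagram lifts by regular rings -/
theorem DD_reg : LiftsReg DD := by
  refine ⟨fun p => RT (ty p), fun p => (rtRing (ty p)).toNonUnitalRing, fun p q _ => rF p q,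
    fun p k => rkT (ty p) k, ?_, ?_, ?_, ?_, ?_⟩
  · intro p x
    exact reg_T (ty p) x
  · intro p x
    show rF p p x = x
    rw [rF_eq]
    exact Fn_id _ _ rMap_id p x
  · intro p q r h h' x
    show rF q r (rF p q x) = rF p r x
    rw [rF_eq, rF_eq, rF_eq]
    exact Fn_comp _ _ rMap_comp rTw_rMap (fun _ => rfl) (fun _ => rfl) p q r h h' x
  · intro p
    exact V_T (ty p)
  · intro p q h k e he
    show rkT (ty q) k (e.map (rF p q)) = nF p q (rkT (ty p) k e)
    have hpq := ty_mono p q h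
    unfold rF nF
    split_ifs with ht
    · have h1 := rkT_rTw (ty q) k (e.map (rMap (ty p) (ty q))) (idem_map _ he)
      rw [rkT_rMap _ _ hpq k e he] at h1
      exact h1
    · exact rkT_rMap _ _ hpq k e he

theorem rG_one (t : Fin 3 → Fin 3) : rG t (1 : Rsd 3 1 KK) = 1 := by
  funext j
  exact Matrix.map_one sg (map_zero sg) (map_one sg)

theorem rGT_one : rGT (1 : Rsd 1 3 KK) = 1 := by
  funext j
  exact Matrix.map_one sg (map_zero sg) (map_one sg)

theorem rBM_one : rBM (1 : Rsd 1 1 ℚ) = 1 := by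
  funext j
  exact Matrix.map_one (Rat.castHom KK) (map_zero _) (map_one _)

theorem rMT_one (G : Matrix (Fin 3) (Fin 3) KK) (hG : IsUnit G.det) :
    rMT G hG (1 : Rsd 3 1 KK) = 1 := by
  funext j
  show G * Matrix.diagonal (fun _ => (1 : KK)) * G⁻¹ = 1
  rw [Matrix.diagonal_one, Matrix.mul_one, Matrix.mul_nonsing_inv G hG]

theorem rMap_one (a b : Ty) (h : tle a b = true) : rMap a b (1 : RT a) = 1 := by
  cases b
  case Z => exact RZ_eq _ _
  all_goals
    cases a <;> (try exact absurd h (by decide)) <;> (try rfl)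
  · exact rBM_one
  · exact rBM_one
  · exact (congrArg (rMT mM mM_unit) rBM_one).trans (rMT_one mM mM_unit)
  · exact rMT_one mM mM_unit
  · exact rMT_one mL mL_unit

theorem rTw_one (a : Ty) : rTw a (1 : RT a) = 1 := by
  cases a
  · rfl
  · exact rG_one _
  · exact rG_one _
  · exact rGT_one
  · rfl

theorem rF_one (p q : PP) (h : p ≤ q) : rF p q (1 : RT (ty p)) = 1 := by
  unfold rF
  split_ifs
  · show rTw (ty q) (rMap (ty p) (ty q) 1) = 1
    rw [rMap_one _ _ (ty_mono p q h), rTw_one]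
  · exact rMap_one _ _ (ty_mono p q h)

noncomputable def rFu (p q : PP) (h : p ≤ q) : RT (ty p) →+* RT (ty q) where
  toFun x := rF p q x
  map_one' := rF_one p q h
  map_mul' x y := map_mul (rF p q) x y
  map_zero' := map_zero (rF p q)
  map_add' x y := map_add (rF p q) x y

/-- the diagram lifts by unital regular rings and unit-preserving maps -/
theorem DD_regU : LiftsRegUnital DD := by
  refine ⟨fun p => RT (ty p), fun p => rtRing (ty p), fun p q h => rFu p q h,
    fun p k => rkT (ty p) k, ?_, ?_, ?_, ?_, ?_⟩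
  · intro p x
    exact reg_T (ty p) x
  · intro p x
    show rF p p x = x
    rw [rF_eq]
    exact Fn_id _ _ rMap_id p x
  · intro p q r h h' x
    show rF q r (rF p q x) = rF p r x
    rw [rF_eq, rF_eq, rF_eq]
    exact Fn_comp _ _ rMap_comp rTw_rMap (fun _ => rfl) (fun _ => rfl) p q r h h' x
  · intro p
    exact V_T (ty p)
  · intro p q h k e he
    show rkT (ty q) k (e.map (rF p q)) = nF p q (rkT (ty p) k e)
    have hpq := ty_mono p q h
    unfold rF nF
    split_ifs with ht
    · have h1 := rkT_rTw (ty q) k (e.map (rMap (ty p) (ty q))) (idem_map _ he)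
      rw [rkT_rMap _ _ hpq k e he] at h1
      exact h1
    · exact rkT_rMap _ _ hpq k e he

end Pool.Agent.H494R3.LD
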