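import Pool.Agent.H494R3.LD.C9
import Pool.Agent.H494R3.LD.C8

set_option autoImplicit false

/-!
The diagram does not lift by C*-algebras of real rank zero: final assembly.
-/

namespace Pool.Agent.H494R3.LD

universe u

abbrev a1 : Bool × Bool × Bool := (true, false, false)
abbrev a2 : Bool × Bool × Bool := (false, true, false)
abbrev a3 : Bool × Bool × Bool := (false, false, true)
abbrev b12 : Bool × Bool × Bool := (true, true, false)
abbrev b23 : Bool × Bool × Bool := (false, true, true)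
abbrev b13 : Bool × Bool × Bool := (true, false, true)
abbrev kM : Bool × Bool := (true, false)
abbrev kL : Bool × Bool := (false, true)
abbrev kT : Bool × Bool := (true, true)
abbrev p0 : PP := ((false, false, false), (false, false))

theorem nMT_single (i : Fin 3) : nMT (Pi.single i 1) = (Pi.single 0 1 : Fin 1 → ℕ) := by
  revert i; decide
theorem nGM_single (i : Fin 3) : nGM (Pi.single i 1) = (Pi.single (i + 1) 1 : Fin 3 → ℕ) := by
  revert i; decide
theorem nGL_single (i : Fin 3) :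
    nGL (Pi.single i 1) = (Pi.single (Equiv.swap 1 2 i) 1 : Fin 3 → ℕ) := by
  revert i; decide

section
variable {A : Type u} [NonUnitalCStarAlgebra A]

theorem base_proj {φ : ∀ k : ℕ, Matrix (Fin k) (Fin k) A → (Fin 1 → ℕ)}
    (hr : RealRankZero A) (h : IsVStar A (Fin 1 → ℕ) φ) :
    ∃ e : A, IsP e ∧ cl φ e = Pi.single 0 1 := by
  have h1 : ∃ a : A, a ≠ 0 := by
    by_contra hcon
    push Not at hcon
    obtain ⟨k, p, hp1, hp2, hp3⟩ := h.surj (Pi.single 0 1)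
    have hp0 : p = 0 := by
      ext i j; exact hcon _
    have hz : IsP (0 : A) := ⟨by simp, by simp⟩
    have h2 : φ k p = φ 1 (s1 (0 : A)) := by
      rw [h.equiv k 1 p _ hp1 hp2 hz.s1mul hz.s1ct]
      refine ⟨0, ?_, ?_⟩
      · rw [hp0]; simp
      · ext i j; exact (hcon _).trans (hcon _).symm
    rw [hp3] at h2
    have h3 := cl_zero h
    unfold cl at h3
    rw [h3] at h2
    exact single_ne 0 h2
  obtain ⟨a, ha⟩ := h1
  have ha' : star a * a ≠ 0 := fun h0 => ha ((CStarRing.star_mul_self_eq_zero_iff a).1 h0)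
  obtain ⟨f, hf0, hff, hfs, _⟩ := exists_proj hr (a := star a * a)
    (by rw [star_mul, star_star]) ha'
  have hf : IsP f := ⟨hff, hfs⟩
  have hn : cl φ f 0 ≠ 0 := by
    intro h0
    apply hf0
    apply cl_eq_zero h hf
    funext j
    have hj : j = 0 := Subsingleton.elim _ _
    rw [hj, h0]
    rfl
  have h2 : cl φ f = Pi.single 0 1 + fun _ => (cl φ f 0 - 1) := by
    funext j
    have hj : j = 0 := Subsingleton.elim _ _
    rw [hj]
    show cl φ f 0 = 1 + (cl φ f 0 - 1)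
    omega
  obtain ⟨e, _, he, _, _, _, hc, _⟩ := cl_split h hf h2
  exact ⟨e, he, hc⟩

variable {A' B : Type u} [NonUnitalCStarAlgebra A'] [NonUnitalCStarAlgebra B]

theorem compare {ψ : ∀ k : ℕ, Matrix (Fin k) (Fin k) B → (Fin 3 → ℕ)} (hr : RealRankZero B)
    (hV : IsVStar B (Fin 3 → ℕ) ψ) (f : A →⋆ₙₐ[ℂ] B) (f' : A' →⋆ₙₐ[ℂ] B) {E : A} {E' : A'}
    (hE : f E = f' E') {e : Fin 3 → A} {e' : Fin 3 → A'} (h : Fr E e) (h' : Fr E' e')
    (s : Fin 3 → Fin 3) (hc : ∀ i, cl ψ (f (e i)) = Pi.single (s i) 1)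
    (hc' : ∀ i, cl ψ (f' (e' i)) = Pi.single i 1) (i : Fin 3) : f (e i) = f' (e' (s i)) := by
  have hF : Fr (f' E') (fun i => f' (e' i)) := h'.map f'
    (fun i => (atom_facts hr hV ((h'.p i).map f') i (hc' i)).1)
    (fun i => (atom_facts hr hV ((h'.p i).map f') i (hc' i)).2)
  apply hF.uniq hV _ ((h.p i).map f) (atom_facts hr hV ((h.p i).map f) (s i) (hc i)).1 _ (s i)
    ((hc i).trans (hc' (s i)).symm)
  · intro j k hjk heq
    have h1 : (Pi.single j 1 : Fin 3 → ℕ) = Pi.single k 1 := (hc' j).symm.trans (heq.trans (hc' k))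
    have h2 := congrFun h1 j
    rw [Pi.single_eq_same, Pi.single_eq_of_ne hjk] at h2
    exact one_ne_zero h2
  · rw [← hE, ← map_mul, h.left]

theorem Tlev {ψ : ∀ k : ℕ, Matrix (Fin k) (Fin k) B → (Fin 1 → ℕ)} (hr : RealRankZero B)
    (hV : IsVStar B (Fin 1 → ℕ) ψ) {E : A} {e : Fin 3 → A} (h : Fr E e) (f : A →⋆ₙₐ[ℂ] B)
    (hc : ∀ i, cl ψ (f (e i)) = Pi.single 0 1) :
    Fr (f E) (fun i => f (e i)) ∧ ∀ i j, Lk (f (e i)) (f (e j)) := by
  refine ⟨h.map f (fun i => (atom_facts hr hV ((h.p i).map f) 0 (hc i)).1)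
    (fun i => (atom_facts hr hV ((h.p i).map f) 0 (hc i)).2), fun i j => ?_⟩
  exact link hV ((h.p i).map f) ((h.p j).map f) ((hc i).trans (hc j).symm)

end

theorem DD_not : ¬ LiftsRR0.{u} DD := by
  rintro ⟨A, inst, F, φ, hr, hid, hcomp, hV, hnat⟩
  have nat : ∀ (p q : PP) (h : p ≤ q) (x : A p), IsP x →
      cl (φ q) (F p q h x) = nF p q (cl (φ p) x) :=
    fun p q h x hx => hnat p q h 1 (s1 x) hx.s1mul hx.s1ct
  obtain ⟨e0, he0, hc0⟩ := base_proj (A := A p0) (φ := φ p0) (hr p0) (hV p0)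
  have push : ∀ (a a' b : Bool × Bool × Bool) (c : Bool × Bool) (h : a ≤ b) (h' : a' ≤ b)
      (hc : c ≤ kT) (x : A (a, c)) (x' : A (a', c)),
      F (a, c) (b, c) ⟨h, le_rfl⟩ x = F (a', c) (b, c) ⟨h', le_rfl⟩ x' →
      F (a, kT) (b, kT) ⟨h, le_rfl⟩ (F (a, c) (a, kT) ⟨le_rfl, hc⟩ x) =
        F (a', kT) (b, kT) ⟨h', le_rfl⟩ (F (a', c) (a', kT) ⟨le_rfl, hc⟩ x') := by
    intro a a' b c h h' hc x x' hx
    have h1 := congrArg (F (b, c) (b, kT) ⟨le_rfl, hc⟩) hx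
    rw [hcomp, hcomp] at h1
    rw [hcomp, hcomp]
    exact h1
  -- the frames at the six contexts
  obtain ⟨m1, hm1, cm1⟩ := frame3 (A := A (a1, kM)) (φ := φ (a1, kM)) (hr _) (hV _)
    (E := F p0 (a1, kM) (by decide) e0) (he0.map _)
    ((nat _ _ _ _ he0).trans (congrArg (nF p0 (a1, kM)) hc0))
  obtain ⟨m2, hm2, cm2⟩ := frame3 (A := A (a2, kM)) (φ := φ (a2, kM)) (hr _) (hV _)
    (E := F p0 (a2, kM) (by decide) e0) (he0.map _)
    ((nat _ _ _ _ he0).trans (congrArg (nF p0 (a2, kM)) hc0))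
  obtain ⟨m3, hm3, cm3⟩ := frame3 (A := A (a3, kM)) (φ := φ (a3, kM)) (hr _) (hV _)
    (E := F p0 (a3, kM) (by decide) e0) (he0.map _)
    ((nat _ _ _ _ he0).trans (congrArg (nF p0 (a3, kM)) hc0))
  obtain ⟨l1, hl1, cl1⟩ := frame3 (A := A (a1, kL)) (φ := φ (a1, kL)) (hr _) (hV _)
    (E := F p0 (a1, kL) (by decide) e0) (he0.map _)
    ((nat _ _ _ _ he0).trans (congrArg (nF p0 (a1, kL)) hc0))
  obtain ⟨l2, hl2, cl2⟩ := frame3 (A := A (a2, kL)) (φ := φ (a2, kL)) (hr _) (hV _)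
    (E := F p0 (a2, kL) (by decide) e0) (he0.map _)
    ((nat _ _ _ _ he0).trans (congrArg (nF p0 (a2, kL)) hc0))
  obtain ⟨l3, hl3, cl3⟩ := frame3 (A := A (a3, kL)) (φ := φ (a3, kL)) (hr _) (hV _)
    (E := F p0 (a3, kL) (by decide) e0) (he0.map _)
    ((nat _ _ _ _ he0).trans (congrArg (nF p0 (a3, kL)) hc0))
  -- comparison in the contexts over the three coatoms
  have qm13 := compare (hr (b13, kM)) (hV (b13, kM)) (F (a1, kM) (b13, kM) (by decide))
    (F (a3, kM) (b13, kM) (by decide)) (by rw [hcomp, hcomp]) hm1 hm3 (fun i => i + 1)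
    (fun i => (nat _ _ _ _ (hm1.p i)).trans
      ((congrArg (nF (a1, kM) (b13, kM)) (cm1 i)).trans (nGM_single i)))
    (fun i => (nat _ _ _ _ (hm3.p i)).trans (congrArg (nF (a3, kM) (b13, kM)) (cm3 i)))
  have qm32 := compare (hr (b23, kM)) (hV (b23, kM)) (F (a3, kM) (b23, kM) (by decide))
    (F (a2, kM) (b23, kM) (by decide)) (by rw [hcomp, hcomp]) hm3 hm2 (fun i => i)
    (fun i => (nat _ _ _ _ (hm3.p i)).trans (congrArg (nF (a3, kM) (b23, kM)) (cm3 i)))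
    (fun i => (nat _ _ _ _ (hm2.p i)).trans (congrArg (nF (a2, kM) (b23, kM)) (cm2 i)))
  have qm21 := compare (hr (b12, kM)) (hV (b12, kM)) (F (a2, kM) (b12, kM) (by decide))
    (F (a1, kM) (b12, kM) (by decide)) (by rw [hcomp, hcomp]) hm2 hm1 (fun i => i)
    (fun i => (nat _ _ _ _ (hm2.p i)).trans (congrArg (nF (a2, kM) (b12, kM)) (cm2 i)))
    (fun i => (nat _ _ _ _ (hm1.p i)).trans (congrArg (nF (a1, kM) (b12, kM)) (cm1 i)))
  have ql13 := compare (hr (b13, kL)) (hV (b13, kL)) (F (a1, kL) (b13, kL) (by decide))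
    (F (a3, kL) (b13, kL) (by decide)) (by rw [hcomp, hcomp]) hl1 hl3
    (fun i => Equiv.swap 1 2 i)
    (fun i => (nat _ _ _ _ (hl1.p i)).trans
      ((congrArg (nF (a1, kL) (b13, kL)) (cl1 i)).trans (nGL_single i)))
    (fun i => (nat _ _ _ _ (hl3.p i)).trans (congrArg (nF (a3, kL) (b13, kL)) (cl3 i)))
  have ql32 := compare (hr (b23, kL)) (hV (b23, kL)) (F (a3, kL) (b23, kL) (by decide))
    (F (a2, kL) (b23, kL) (by decide)) (by rw [hcomp, hcomp]) hl3 hl2 (fun i => i)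
    (fun i => (nat _ _ _ _ (hl3.p i)).trans (congrArg (nF (a3, kL) (b23, kL)) (cl3 i)))
    (fun i => (nat _ _ _ _ (hl2.p i)).trans (congrArg (nF (a2, kL) (b23, kL)) (cl2 i)))
  have ql21 := compare (hr (b12, kL)) (hV (b12, kL)) (F (a2, kL) (b12, kL) (by decide))
    (F (a1, kL) (b12, kL) (by decide)) (by rw [hcomp, hcomp]) hl2 hl1 (fun i => i)
    (fun i => (nat _ _ _ _ (hl2.p i)).trans (congrArg (nF (a2, kL) (b12, kL)) (cl2 i)))
    (fun i => (nat _ _ _ _ (hl1.p i)).trans (congrArg (nF (a1, kL) (b12, kL)) (cl1 i)))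
  -- the frames in the matrix levels
  have cT : ∀ (i : Fin 3), cl (φ (a1, kT)) (F (a1, kM) (a1, kT) (by decide) (m1 i)) =
      (Pi.single 0 1 : Fin 1 → ℕ) ∧ cl (φ (a2, kT)) (F (a2, kM) (a2, kT) (by decide) (m2 i)) =
      (Pi.single 0 1 : Fin 1 → ℕ) ∧ cl (φ (a3, kT)) (F (a3, kM) (a3, kT) (by decide) (m3 i)) =
      (Pi.single 0 1 : Fin 1 → ℕ) := fun i =>
    ⟨(nat _ _ _ _ (hm1.p i)).trans ((congrArg (nF (a1, kM) (a1, kT)) (cm1 i)).trans
      (nMT_single i)),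
    (nat _ _ _ _ (hm2.p i)).trans ((congrArg (nF (a2, kM) (a2, kT)) (cm2 i)).trans
      (nMT_single i)),
    (nat _ _ _ _ (hm3.p i)).trans ((congrArg (nF (a3, kM) (a3, kT)) (cm3 i)).trans
      (nMT_single i))⟩
  have T1 := Tlev (hr (a1, kT)) (hV (a1, kT)) hm1 (F (a1, kM) (a1, kT) (by decide))
    (fun i => (cT i).1)
  have T2 := Tlev (hr (a2, kT)) (hV (a2, kT)) hm2 (F (a2, kM) (a2, kT) (by decide))
    (fun i => (cT i).2.1)
  have T3 := Tlev (hr (a3, kT)) (hV (a3, kT)) hm3 (F (a3, kM) (a3, kT) (by decide))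
    (fun i => (cT i).2.2)
  rw [hcomp] at T1 T2 T3
  have B3 := (Tlev (hr (b13, kT)) (hV (b13, kT)) T3.1 (F (a3, kT) (b13, kT) (by decide))
    (fun i => (nat _ _ _ _ (T3.1.p i)).trans (congrArg (nF (a3, kT) (b13, kT)) (cT i).2.2))).1
  have B2 := (Tlev (hr (b23, kT)) (hV (b23, kT)) T2.1 (F (a2, kT) (b23, kT) (by decide))
    (fun i => (nat _ _ _ _ (T2.1.p i)).trans (congrArg (nF (a2, kT) (b23, kT)) (cT i).2.1))).1
  have B1 := (Tlev (hr (b12, kT)) (hV (b12, kT)) T1.1 (F (a1, kT) (b12, kT) (by decide))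
    (fun i => (nat _ _ _ _ (T1.1.p i)).trans (congrArg (nF (a1, kT) (b12, kT)) (cT i).1))).1
  obtain ⟨t13, ht13, h13⟩ := edge (F (a1, kT) (b13, kT) (by decide))
    (F (a3, kT) (b13, kT) (by decide)) (E := F p0 (a1, kT) (by decide) e0)
    (by rw [hcomp, hcomp]) T3.1 T3.2 B3
  obtain ⟨t32, ht32, h32⟩ := edge (F (a3, kT) (b23, kT) (by decide))
    (F (a2, kT) (b23, kT) (by decide)) (E := F p0 (a3, kT) (by decide) e0)
    (by rw [hcomp, hcomp]) T2.1 T2.2 B2
  obtain ⟨t21, ht21, h21⟩ := edge (F (a2, kT) (b12, kT) (by decide))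
    (F (a1, kT) (b12, kT) (by decide)) (E := F p0 (a2, kT) (by decide) e0)
    (by rw [hcomp, hcomp]) T1.1 T1.2 B1
  have hα := (ht13.comp ht32).comp ht21
  -- the action on the first frame
  have r13 : ∀ i, t13 (F (a1, kM) (a1, kT) (by decide) (m1 i)) =
      F (a3, kM) (a3, kT) (by decide) (m3 (i + 1)) := fun i =>
    h13 _ _ (T1.1.cn i) (T3.1.cn (i + 1)) (push a1 a3 b13 kM (by decide) (by decide) (by decide) _ _
      (qm13 i))
  have r32 : ∀ i, t32 (F (a3, kM) (a3, kT) (by decide) (m3 i)) =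
      F (a2, kM) (a2, kT) (by decide) (m2 i) := fun i =>
    h32 _ _ (T3.1.cn i) (T2.1.cn i) (push a3 a2 b23 kM (by decide) (by decide) (by decide) _ _
      (qm32 i))
  have r21 : ∀ i, t21 (F (a2, kM) (a2, kT) (by decide) (m2 i)) =
      F (a1, kM) (a1, kT) (by decide) (m1 i) := fun i =>
    h21 _ _ (T2.1.cn i) (T1.1.cn i) (push a2 a1 b12 kM (by decide) (by decide) (by decide) _ _
      (qm21 i))
  -- the action on the second frame
  have cn1 : ∀ i, Cn (F p0 (a1, kT) (by decide) e0) (F (a1, kL) (a1, kT) (by decide) (l1 i)) := by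
    intro i
    have h1 := hl1.cn i
    have h2 := hcomp p0 (a1, kL) (a1, kT) (by decide) (by decide) e0
    rw [← h2]
    exact ⟨by rw [← map_mul, h1.1], by rw [← map_mul, h1.2]⟩
  have cn2 : ∀ i, Cn (F p0 (a2, kT) (by decide) e0) (F (a2, kL) (a2, kT) (by decide) (l2 i)) := by
    intro i
    have h1 := hl2.cn i
    have h2 := hcomp p0 (a2, kL) (a2, kT) (by decide) (by decide) e0
    rw [← h2]
    exact ⟨by rw [← map_mul, h1.1], by rw [← map_mul, h1.2]⟩
  have cn3 : ∀ i, Cn (F p0 (a3, kT) (by decide) e0) (F (a3, kL) (a3, kT) (by decide) (l3 i)) := by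
    intro i
    have h1 := hl3.cn i
    have h2 := hcomp p0 (a3, kL) (a3, kT) (by decide) (by decide) e0
    rw [← h2]
    exact ⟨by rw [← map_mul, h1.1], by rw [← map_mul, h1.2]⟩
  have s13 : ∀ i, t13 (F (a1, kL) (a1, kT) (by decide) (l1 i)) =
      F (a3, kL) (a3, kT) (by decide) (l3 (Equiv.swap 1 2 i)) := fun i =>
    h13 _ _ (cn1 i) (cn3 _) (push a1 a3 b13 kL (by decide) (by decide) (by decide) _ _
      (ql13 i))
  have s32 : ∀ i, t32 (F (a3, kL) (a3, kT) (by decide) (l3 i)) =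
      F (a2, kL) (a2, kT) (by decide) (l2 i) := fun i =>
    h32 _ _ (cn3 i) (cn2 i) (push a3 a2 b23 kL (by decide) (by decide) (by decide) _ _
      (ql32 i))
  have s21 : ∀ i, t21 (F (a2, kL) (a2, kT) (by decide) (l2 i)) =
      F (a1, kL) (a1, kT) (by decide) (l1 i) := fun i =>
    h21 _ _ (cn2 i) (cn1 i) (push a2 a1 b12 kL (by decide) (by decide) (by decide) _ _
      (ql21 i))
  have am : ∀ i, (t21 ∘ (t32 ∘ t13)) (F (a1, kM) (a1, kT) (by decide) (m1 i)) =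
      F (a1, kM) (a1, kT) (by decide) (m1 (i + 1)) := by
    intro i
    show t21 (t32 (t13 _)) = _
    rw [r13, r32, r21]
  have al : ∀ i, (t21 ∘ (t32 ∘ t13)) (F (a1, kL) (a1, kT) (by decide) (l1 i)) =
      F (a1, kL) (a1, kT) (by decide) (l1 (Equiv.swap 1 2 i)) := by
    intro i
    show t21 (t32 (t13 _)) = _
    rw [s13, s32, s21]
  have e2 : Equiv.swap (1 : Fin 3) 2 1 = 2 := by decide
  have e3 : Equiv.swap (1 : Fin 3) 2 2 = 1 := by decide
  have fin := core T1.1 T1.2 hα (am 0) (am 1) (am 2) (cn1 1)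
    ((al 1).trans (by rw [e2])) ((al 2).trans (by rw [e3]))
  have c1 : cl (φ (a1, kT)) (F (a1, kL) (a1, kT) (by decide) (l1 1)) =
      (Pi.single 0 1 : Fin 1 → ℕ) :=
    (nat _ _ _ _ (hl1.p 1)).trans ((congrArg (nF (a1, kL) (a1, kT)) (cl1 1)).trans
      (nMT_single 1))
  have hne := (atom_facts (s := 1) (φ := φ (a1, kT)) (hr (a1, kT)) (hV (a1, kT))
    ((hl1.p 1).map _) 0 c1).2
  apply hne
  have h1 : F (a1, kL) (a1, kT) (by decide) (l1 1) * F (a1, kL) (a1, kT) (by decide) (l1 2) = 0 := by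
    rw [← map_mul, hl1.orth 1 2 (by decide), map_zero]
  rw [← fin, ← map_mul, (hl1.p 1).mul] at h1
  exact h1

/-- the main theorem -/
theorem main : ∃ (P : Type) (_ : Lattice P) (_ : Finite P) (_ : Nonempty P) (M : Diag P),
    LiftsReg M ∧ LiftsRegUnital M ∧ ¬ LiftsRR0.{u} M :=
  ⟨PP, inferInstance, inferInstance, inferInstance, DD, DD_reg, DD_regU, DD_not⟩

end Pool.Agent.H494R3.LD
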