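import Pool.Agent.H494R3.LD.C2

set_option autoImplicit false

/-!
Consequences of an identification of `V(A)` with a monoid.
-/

namespace Pool.Agent.H494R3.LD

section
variable {A : Type*} [NonUnitalCStarAlgebra A]

/-- projection -/
structure IsP (p : A) : Prop where
  mul : p * p = p
  st : star p = p

def s1 (p : A) : Matrix (Fin 1) (Fin 1) A := fun _ _ => p

omit [NonUnitalCStarAlgebra A] in
theorem s1_inj {p q : A} (h : s1 p = s1 q) : p = q := congrFun (congrFun h 0) 0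

theorem s1_mul (p q : A) : s1 p * s1 q = s1 (p * q) := by
  ext i j
  rw [Matrix.mul_apply]
  exact Fin.sum_univ_one (fun _ : Fin 1 => p * q)

theorem s1_ct (p : A) : (s1 p).conjTranspose = s1 (star p) := rfl

theorem IsP.s1mul {p : A} (h : IsP p) : s1 p * s1 p = s1 p := by rw [s1_mul, h.mul]
theorem IsP.s1ct {p : A} (h : IsP p) : (s1 p).conjTranspose = s1 p := by rw [s1_ct, h.st]

theorem IsP.comm_of {p f : A} (hp : IsP p) (hf : IsP f) (h : p * f = f) : f * p = f := by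
  have := congrArg star h
  rwa [star_mul, hp.st, hf.st] at this

theorem IsP.sub {p f : A} (hp : IsP p) (hf : IsP f) (h : p * f = f) : IsP (p - f) := by
  have h' := hp.comm_of hf h
  refine ⟨?_, by rw [star_sub, hp.st, hf.st]⟩
  rw [sub_mul, mul_sub, mul_sub, hp.mul, h, h', hf.mul]
  abel

theorem IsP.add {p f : A} (hp : IsP p) (hf : IsP f) (h : p * f = 0) : IsP (p + f) := by
  have h' : f * p = 0 := by
    have := congrArg star h
    rwa [star_mul, hp.st, hf.st, star_zero] at this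
  refine ⟨?_, by rw [star_add, hp.st, hf.st]⟩
  rw [add_mul, mul_add, mul_add, hp.mul, h, h', hf.mul]
  abel

/-- a column with zero norm vanishes -/
theorem col_zero {k : ℕ} {w : Matrix (Fin k) (Fin 1) A} (h : w.conjTranspose * w = 0) : w = 0 := by
  let _ := CStarAlgebra.spectralOrder A
  have _ := CStarAlgebra.spectralOrderedRing A
  have h0 := congrFun (congrFun h 0) 0
  rw [Matrix.mul_apply] at h0
  have h1 : ∑ i, star (w i 0) * w i 0 = 0 := h0
  rw [Finset.sum_eq_zero_iff_of_nonneg (fun i _ => star_mul_self_nonneg (w i 0))] at h1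
  ext i j
  have hj : j = 0 := Subsingleton.elim _ _
  subst hj
  exact (CStarRing.star_mul_self_eq_zero_iff _).1 (h1 i (Finset.mem_univ i))

theorem col_absorb {k : ℕ} {p : A} (hp : IsP p) {v : Matrix (Fin k) (Fin 1) A}
    (h : v.conjTranspose * v = s1 p) : v * s1 p = v := by
  have h1 : (v - v * s1 p).conjTranspose * (v - v * s1 p) = 0 := by
    rw [Matrix.conjTranspose_sub, Matrix.conjTranspose_mul, hp.s1ct]
    rw [Matrix.sub_mul, Matrix.mul_sub, Matrix.mul_sub, h, ← Matrix.mul_assoc, h, hp.s1mul,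
      Matrix.mul_assoc, h, hp.s1mul, Matrix.mul_assoc, ← Matrix.mul_assoc v.conjTranspose, h,
      hp.s1mul, hp.s1mul]
    abel
  exact (sub_eq_zero.1 (col_zero h1)).symm

variable {N : Type*} [AddCommMonoid N] [IsCancelAdd N] {φ : ∀ k : ℕ, Matrix (Fin k) (Fin k) A → N}

def cl (φ : ∀ k : ℕ, Matrix (Fin k) (Fin k) A → N) (p : A) : N := φ 1 (s1 p)

variable (h : IsVStar A N φ)
include h

omit [IsCancelAdd N] in
theorem cl_eq {p q : A} (hp : IsP p) (hq : IsP q) :
    cl φ p = cl φ q ↔ ∃ v : A, star v * v = p ∧ v * star v = q := by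
  unfold cl
  rw [h.equiv 1 1 _ _ hp.s1mul hp.s1ct hq.s1mul hq.s1ct]
  constructor
  · rintro ⟨v, h1, h2⟩
    have hv : v = s1 (v 0 0) := by
      ext i j
      have hi : i = 0 := Subsingleton.elim _ _
      have hj : j = 0 := Subsingleton.elim _ _
      subst hi hj
      rfl
    rw [hv, s1_ct, s1_mul] at h1 h2
    exact ⟨v 0 0, s1_inj h1, s1_inj h2⟩
  · rintro ⟨v, h1, h2⟩
    exact ⟨s1 v, by rw [s1_ct, s1_mul, h1], by rw [s1_ct, s1_mul, h2]⟩

omit [IsCancelAdd N] in
theorem cl_add {p q : A} (hp : IsP p) (hq : IsP q) (hpq : p * q = 0) :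
    cl φ (p + q) = cl φ p + cl φ q := by
  have hqp : q * p = 0 := by
    have := congrArg star hpq
    rwa [star_mul, hp.st, hq.st, star_zero] at this
  unfold cl
  rw [← h.add 1 1 _ _ hp.s1mul hp.s1ct hq.s1mul hq.s1ct]
  have hb1 : bdiag (s1 p) (s1 q) * bdiag (s1 p) (s1 q) = bdiag (s1 p) (s1 q) := by
    unfold bdiag
    rw [Matrix.submatrix_mul_equiv, Matrix.fromBlocks_multiply]
    simp [hp.s1mul, hq.s1mul]
  have hb2 : (bdiag (s1 p) (s1 q)).conjTranspose = bdiag (s1 p) (s1 q) := by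
    unfold bdiag
    rw [Matrix.conjTranspose_submatrix, Matrix.fromBlocks_conjTranspose, hp.s1ct, hq.s1ct]
    simp
  rw [h.equiv 1 (1 + 1) _ _ (hp.add hq hpq).s1mul (hp.add hq hpq).s1ct hb1 hb2]
  have e1 : (Matrix.fromRows (s1 p) (s1 q)).conjTranspose * Matrix.fromRows (s1 p) (s1 q) =
      s1 (p + q) := by
    ext i j
    rw [Matrix.mul_apply, Fintype.sum_sum_type]
    show ∑ _ : Fin 1, star p * p + ∑ _ : Fin 1, star q * q = p + q
    rw [Fin.sum_univ_one, Fin.sum_univ_one, hp.st, hq.st, hp.mul, hq.mul]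
  have e2 : Matrix.fromRows (s1 p) (s1 q) * (Matrix.fromRows (s1 p) (s1 q)).conjTranspose =
      Matrix.fromBlocks (s1 p) 0 0 (s1 q) := by
    ext (i | i) (j | j)
    · rw [Matrix.mul_apply]
      exact (Fin.sum_univ_one (fun _ : Fin 1 => p * star p)).trans (by rw [hp.st, hp.mul]; rfl)
    · rw [Matrix.mul_apply]
      exact (Fin.sum_univ_one (fun _ : Fin 1 => p * star q)).trans (by rw [hq.st, hpq]; rfl)
    · rw [Matrix.mul_apply]
      exact (Fin.sum_univ_one (fun _ : Fin 1 => q * star p)).trans (by rw [hp.st, hqp]; rfl)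
    · rw [Matrix.mul_apply]
      exact (Fin.sum_univ_one (fun _ : Fin 1 => q * star q)).trans (by rw [hq.st, hq.mul]; rfl)
  refine ⟨(Matrix.fromRows (s1 p) (s1 q)).submatrix
    ((finSumFinEquiv (m := 1) (n := 1)).symm : Fin (1 + 1) → Fin 1 ⊕ Fin 1) id, ?_, ?_⟩
  · rw [Matrix.conjTranspose_submatrix, Matrix.submatrix_mul_equiv, e1]
    rfl
  · rw [Matrix.conjTranspose_submatrix]
    have := Matrix.submatrix_mul_equiv (Matrix.fromRows (s1 p) (s1 q))
      (Matrix.fromRows (s1 p) (s1 q)).conjTranspose finSumFinEquiv.symm (Equiv.refl (Fin 1))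
      finSumFinEquiv.symm
    rw [e2] at this
    exact this

theorem cl_zero : cl φ (0 : A) = 0 := by
  have hz : IsP (0 : A) := ⟨by simp, by simp⟩
  have h1 := cl_add h hz hz (by simp)
  rw [add_zero] at h1
  exact (left_eq_add.1 h1)

theorem cl_eq_zero {p : A} (hp : IsP p) (h0 : cl φ p = 0) : p = 0 := by
  have hz : IsP (0 : A) := ⟨by simp, by simp⟩
  rw [← cl_zero h, cl_eq h hp hz] at h0
  obtain ⟨v, h1, h2⟩ := h0
  have := (CStarRing.mul_star_self_eq_zero_iff v).1 h2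
  rw [← h1, this, mul_zero]

omit [IsCancelAdd N] in
theorem cl_split {p : A} (hp : IsP p) {m m' : N} (hm : cl φ p = m + m') :
    ∃ p₁ p₂ : A, IsP p₁ ∧ IsP p₂ ∧ p₁ + p₂ = p ∧ p₁ * p₂ = 0 ∧ cl φ p₁ = m ∧ cl φ p₂ = m' := by
  obtain ⟨k, e, he1, he2, he3⟩ := h.surj m
  obtain ⟨l, f, hf1, hf2, hf3⟩ := h.surj m'
  rw [← he3, ← hf3, ← h.add k l e f he1 he2 hf1 hf2] at hm
  have hb1 : bdiag e f * bdiag e f = bdiag e f := by
    unfold bdiag
    rw [Matrix.submatrix_mul_equiv, Matrix.fromBlocks_multiply]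
    simp [he1, hf1]
  have hb2 : (bdiag e f).conjTranspose = bdiag e f := by
    unfold bdiag
    rw [Matrix.conjTranspose_submatrix, Matrix.fromBlocks_conjTranspose, he2, hf2]
    simp
  unfold cl at hm
  rw [h.equiv 1 (k + l) _ _ hp.s1mul hp.s1ct hb1 hb2] at hm
  obtain ⟨v, hv1, hv2⟩ := hm
  have hvp := col_absorb hp hv1
  obtain ⟨v₁, hv₁⟩ : ∃ v₁ : Matrix (Fin k) (Fin 1) A, v₁ = v.submatrix (Fin.castAdd l) id :=
    ⟨_, rfl⟩
  obtain ⟨v₂, hv₂⟩ : ∃ v₂ : Matrix (Fin l) (Fin 1) A, v₂ = v.submatrix (Fin.natAdd k) id :=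
    ⟨_, rfl⟩
  have a11 : v₁ * v₁.conjTranspose = e := by
    ext i j
    have := congrFun (congrFun hv2 (Fin.castAdd l i)) (Fin.castAdd l j)
    rw [hv₁]
    simpa [bdiag, Matrix.mul_apply] using this
  have a22 : v₂ * v₂.conjTranspose = f := by
    ext i j
    have := congrFun (congrFun hv2 (Fin.natAdd k i)) (Fin.natAdd k j)
    rw [hv₂]
    simpa [bdiag, Matrix.mul_apply] using this
  have a12 : v₁ * v₂.conjTranspose = 0 := by
    ext i j
    have := congrFun (congrFun hv2 (Fin.castAdd l i)) (Fin.natAdd k j)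
    rw [hv₁, hv₂]
    simpa [bdiag, Matrix.mul_apply] using this
  have asum : v₁.conjTranspose * v₁ + v₂.conjTranspose * v₂ = s1 p := by
    rw [← hv1]
    ext i j
    rw [Matrix.add_apply, Matrix.mul_apply, Matrix.mul_apply, Matrix.mul_apply, Fin.sum_univ_add,
      hv₁, hv₂]
    rfl
  have b1 : v₁ * s1 p = v₁ := by
    rw [hv₁]
    ext i j
    have := congrFun (congrFun hvp (Fin.castAdd l i)) j
    simpa [Matrix.mul_apply] using this
  have b2 : v₂ * s1 p = v₂ := by
    rw [hv₂]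
    ext i j
    have := congrFun (congrFun hvp (Fin.natAdd k i)) j
    simpa [Matrix.mul_apply] using this
  have a21 : v₂ * v₁.conjTranspose = 0 := by
    have := congrArg Matrix.conjTranspose a12
    rwa [Matrix.conjTranspose_mul, Matrix.conjTranspose_conjTranspose,
      Matrix.conjTranspose_zero] at this
  have c1 : e * v₁ = v₁ := by
    calc e * v₁ = v₁ * (v₁.conjTranspose * v₁ + v₂.conjTranspose * v₂) := by
          rw [Matrix.mul_add, ← Matrix.mul_assoc, ← Matrix.mul_assoc, a11, a12, Matrix.zero_mul,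
            add_zero]
      _ = v₁ := by rw [asum, b1]
  have c2 : f * v₂ = v₂ := by
    calc f * v₂ = v₂ * (v₁.conjTranspose * v₁ + v₂.conjTranspose * v₂) := by
          rw [Matrix.mul_add, ← Matrix.mul_assoc, ← Matrix.mul_assoc, a21, a22, Matrix.zero_mul,
            zero_add]
      _ = v₂ := by rw [asum, b2]
  have s1s : ∀ X : Matrix (Fin 1) (Fin 1) A, X = s1 (X 0 0) := by
    intro X
    ext i j
    have hi : i = 0 := Subsingleton.elim _ _
    have hj : j = 0 := Subsingleton.elim _ _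
    subst hi hj
    rfl
  obtain ⟨p₁, hp₁⟩ : ∃ p₁ : A, s1 p₁ = v₁.conjTranspose * v₁ := ⟨_, (s1s _).symm⟩
  obtain ⟨p₂, hp₂⟩ : ∃ p₂ : A, s1 p₂ = v₂.conjTranspose * v₂ := ⟨_, (s1s _).symm⟩
  have P1 : IsP p₁ := by
    constructor
    · apply s1_inj
      rw [← s1_mul, hp₁, Matrix.mul_assoc, ← Matrix.mul_assoc v₁, a11, c1]
    · apply s1_inj
      rw [← s1_ct, hp₁, Matrix.conjTranspose_mul, Matrix.conjTranspose_conjTranspose]
  have P2 : IsP p₂ := by
    constructor
    · apply s1_inj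
      rw [← s1_mul, hp₂, Matrix.mul_assoc, ← Matrix.mul_assoc v₂, a22, c2]
    · apply s1_inj
      rw [← s1_ct, hp₂, Matrix.conjTranspose_mul, Matrix.conjTranspose_conjTranspose]
  refine ⟨p₁, p₂, P1, P2, ?_, ?_, ?_, ?_⟩
  · apply s1_inj
    rw [← asum, ← hp₁, ← hp₂]
    rfl
  · apply s1_inj
    rw [← s1_mul, hp₁, hp₂, Matrix.mul_assoc, ← Matrix.mul_assoc v₁, a12, Matrix.zero_mul,
      Matrix.mul_zero]
    rfl
  · unfold cl
    rw [← he3, h.equiv 1 k _ _ P1.s1mul P1.s1ct he1 he2]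
    exact ⟨v₁, hp₁.symm, a11⟩
  · unfold cl
    rw [← hf3, h.equiv 1 l _ _ P2.s1mul P2.s1ct hf1 hf2]
    exact ⟨v₂, hp₂.symm, a22⟩

end

end Pool.Agent.H494R3.LD
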