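import Pool.Agent.H494R3.LD.C3

set_option autoImplicit false

/-!
Frames of minimal projections, and the rigidity of linear monodromy.
-/

namespace Pool.Agent.H494R3.LD

/-- scalar corner -/
def Sc {A : Type*} [NonUnitalCStarAlgebra A] (p : A) : Prop := ∀ x : A, ∃ c : ℂ, p * x * p = c • p

section
variable {A : Type*} [NonUnitalCStarAlgebra A] {N : Type*} [AddCommMonoid N] [IsCancelAdd N]
  {φ : ∀ k : ℕ, Matrix (Fin k) (Fin k) A → N}

theorem atom_scalar (hr : RealRankZero A) (h : IsVStar A N φ) {p : A} (hp : IsP p)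
    (hat : ∀ m m' : N, m + m' = cl φ p → m = 0 ∨ m' = 0) : Sc p := by
  apply min_scalar hr hp.mul hp.st
  intro f hff hfs hpf
  have hf : IsP f := ⟨hff, hfs⟩
  have hd := hp.sub hf hpf
  have h1 : cl φ f + cl φ (p - f) = cl φ p := by
    rw [← cl_add h hf hd (by rw [mul_sub, hp.comm_of hf hpf, hff, sub_self])]
    congr 1
    abel
  rcases hat _ _ h1 with h2 | h2
  · left; exact cl_eq_zero h hf h2
  · right
    have := cl_eq_zero h hd h2
    exact (sub_eq_zero.1 this).symm

omit [IsCancelAdd N] in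
theorem orth_of_ne (h : IsVStar A N φ) {p q : A} (hp : IsP p) (hq : IsP q) (sp : Sc p)
    (sq : Sc q) (hne : cl φ p ≠ cl φ q) (x : A) : p * x * q = 0 := by
  let _ := CStarAlgebra.spectralOrder A
  have _ := CStarAlgebra.spectralOrderedRing A
  by_contra hy
  obtain ⟨y, hyd⟩ : ∃ y : A, y = p * x * q := ⟨_, rfl⟩
  rw [← hyd] at hy
  have hpy : p * y = y := by rw [hyd, ← mul_assoc, ← mul_assoc, hp.mul]
  have hyq : y * q = y := by rw [hyd, mul_assoc, hq.mul]
  have hsy : star y * p = star y := by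
    have := congrArg star hpy
    rwa [star_mul, hp.st] at this
  have hsy' : q * star y = star y := by
    have := congrArg star hyq
    rwa [star_mul, hq.st] at this
  obtain ⟨c, hc⟩ := sp (y * star y)
  obtain ⟨d, hd⟩ := sq (star y * y)
  have hc' : y * star y = c • p := by
    rw [← hc]
    rw [← mul_assoc, hpy, mul_assoc, hsy]
  have hd' : star y * y = d • q := by
    rw [← hd]
    rw [← mul_assoc, hsy', mul_assoc, hyq]
  have hp0 : p ≠ 0 := by
    intro h0
    apply hy
    rw [← hpy, h0, zero_mul]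
  have hcc : star c = c := by
    have h1 : star (y * star y) = y * star y := by rw [star_mul, star_star]
    rw [hc', star_smul, hp.st] at h1
    have h2 : (star c - c) • p = 0 := by rw [sub_smul, h1, sub_self]
    rcases smul_eq_zero.1 h2 with h3 | h3
    · exact sub_eq_zero.1 h3
    · exact absurd h3 hp0
  have hcd : c = d := by
    have h1 : y * star y * y = c • y := by rw [hc', smul_mul_assoc, hpy]
    have h2 : y * star y * y = d • y := by rw [mul_assoc, hd', mul_smul_comm, hyq]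
    have h3 : (c - d) • y = 0 := by rw [sub_smul, ← h1, ← h2, sub_self]
    rcases smul_eq_zero.1 h3 with h4 | h4
    · exact sub_eq_zero.1 h4
    · exact absurd h4 hy
  obtain ⟨r, hr⟩ := Complex.conj_eq_iff_real.1 hcc
  have hrp : y * star y = r • p := by rw [hc', hr]; exact Complex.coe_smul r p
  have hr0 : r ≠ 0 := by
    intro h0
    rw [h0, zero_smul] at hrp
    exact hy ((CStarRing.mul_star_self_eq_zero_iff y).1 hrp)
  have hpn : 0 ≤ p := by
    have := star_mul_self_nonneg p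
    rwa [hp.st, hp.mul] at this
  have hrpos : 0 < r := by
    rcases lt_or_gt_of_ne hr0 with h1 | h1
    · exfalso
      have h2 : 0 ≤ r • p := by rw [← hrp]; exact mul_star_self_nonneg y
      have h3 : 0 ≤ (-r) • p := smul_nonneg (by linarith) hpn
      rw [neg_smul] at h3
      have h4 : r • p = 0 := le_antisymm (neg_nonneg.1 h3) h2
      rw [h4] at hrp
      exact hy ((CStarRing.mul_star_self_eq_zero_iff y).1 hrp)
    · exact h1
  have hrq : star y * y = r • q := by rw [hd', ← hcd, hr]; exact Complex.coe_smul r q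
  have hs : (Real.sqrt r)⁻¹ * (Real.sqrt r)⁻¹ * r = 1 := by
    have h1 : Real.sqrt r * Real.sqrt r = r := Real.mul_self_sqrt hrpos.le
    have h2 : Real.sqrt r ≠ 0 := (Real.sqrt_pos.2 hrpos).ne'
    field_simp
    rw [pow_two, h1]
  apply hne
  symm
  rw [cl_eq h hq hp]
  refine ⟨(Real.sqrt r)⁻¹ • y, ?_, ?_⟩
  · rw [star_smul, star_trivial, smul_mul_assoc, mul_smul_comm, smul_smul, hrq, smul_smul, hs,
      one_smul]
  · rw [star_smul, star_trivial, smul_mul_assoc, mul_smul_comm, smul_smul, hrp, smul_smul, hs,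
      one_smul]

/-- algebraic equivalence of idempotents with control -/
def Lk {A : Type*} [NonUnitalCStarAlgebra A] (p q : A) : Prop :=
  ∃ u u' : A, u * u' = p ∧ u' * u = q ∧ p * u = u ∧ u * q = u ∧ q * u' = u' ∧ u' * p = u'

omit [IsCancelAdd N] in
theorem link (h : IsVStar A N φ) {p q : A} (hp : IsP p) (hq : IsP q) (he : cl φ p = cl φ q) :
    Lk p q := by
  rw [cl_eq h hp hq] at he
  obtain ⟨v, h1, h2⟩ := he
  have hvp : v * p = v := by
    have h3 : star (v - v * p) * (v - v * p) = 0 := by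
      rw [star_sub, star_mul, hp.st]
      calc (star v - p * star v) * (v - v * p) = star v * v - (star v * v) * p -
            p * (star v * v) + p * ((star v * v) * p) := by noncomm_ring
        _ = 0 := by rw [h1, hp.mul, hp.mul]; abel
    exact (sub_eq_zero.1 ((CStarRing.star_mul_self_eq_zero_iff _).1 h3)).symm
  have hqv : q * v = v := by rw [← h2, mul_assoc, h1, hvp]
  refine ⟨star v, v, h1, h2, ?_, ?_, hqv, hvp⟩
  · have := congrArg star hvp
    rwa [star_mul, hp.st] at this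
  · have := congrArg star hqv
    rwa [star_mul, hq.st] at this

/-- a frame of three minimal projections -/
structure Fr {A : Type*} [NonUnitalCStarAlgebra A] (E : A) (e : Fin 3 → A) : Prop where
  p : ∀ i, IsP (e i)
  orth : ∀ i j, i ≠ j → e i * e j = 0
  sum : ∑ i, e i = E
  sc : ∀ i, Sc (e i)
  ne : ∀ i, e i ≠ 0

theorem Fr.left {E : A} {e : Fin 3 → A} (h : Fr E e) (i : Fin 3) : E * e i = e i := by
  rw [← h.sum, Finset.sum_mul, Finset.sum_eq_single i]
  · exact (h.p i).mul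
  · intro j _ hj
    exact h.orth j i hj
  · intro hi
    exact absurd (Finset.mem_univ i) hi

theorem Fr.right {E : A} {e : Fin 3 → A} (h : Fr E e) (i : Fin 3) : e i * E = e i := by
  rw [← h.sum, Finset.mul_sum, Finset.sum_eq_single i]
  · exact (h.p i).mul
  · intro j _ hj
    exact h.orth i j (Ne.symm hj)
  · intro hi
    exact absurd (Finset.mem_univ i) hi

/-- a projection below `E` in a given class is the corresponding element of the frame -/
theorem Fr.uniq (h : IsVStar A N φ) {E : A} {g : Fin 3 → A} (hF : Fr E g)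
    (hinj : ∀ i j, i ≠ j → cl φ (g i) ≠ cl φ (g j)) {f : A} (hf : IsP f) (sf : Sc f)
    (hEf : E * f = f) (j : Fin 3) (hj : cl φ f = cl φ (g j)) : f = g j := by
  have h1 : g j * f = f := by
    conv_rhs => rw [← hEf, ← hF.sum, Finset.sum_mul]
    rw [Finset.sum_eq_single j]
    · intro i _ hi
      have h2 := orth_of_ne h (hF.p i) hf (hF.sc i) sf (by rw [hj]; exact hinj i j hi) f
      rwa [mul_assoc, hf.mul] at h2
    · intro hi
      exact absurd (Finset.mem_univ j) hi
  have h2 : f * g j = f := (hF.p j).comm_of hf h1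
  obtain ⟨c, hc⟩ := hF.sc j f
  rw [h1, h2] at hc
  have h3 : (c * c - c) • g j = 0 := by
    have h4 := hf.mul
    rw [hc, smul_mul_assoc, mul_smul_comm, smul_smul, (hF.p j).mul] at h4
    rw [sub_smul, h4, sub_self]
  rcases smul_eq_zero.1 h3 with h4 | h4
  · have h5 : c * (c - 1) = 0 := by rw [← h4]; ring
    rcases mul_eq_zero.1 h5 with h6 | h6
    · exfalso
      rw [h6, zero_smul] at hc
      rw [hc, cl_zero h] at hj
      exact hF.ne j (cl_eq_zero h (hF.p j) hj.symm)
    · rw [hc, sub_eq_zero.1 h6, one_smul]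
  · exact absurd h4 (hF.ne j)

end

/-! ### corners -/

section
variable {A B : Type*} [NonUnitalCStarAlgebra A] [NonUnitalCStarAlgebra B]

def Cn (E x : A) : Prop := E * x = x ∧ x * E = x

theorem Cn.mul {E x y : A} (hx : Cn E x) (hy : Cn E y) : Cn E (x * y) :=
  ⟨by rw [← mul_assoc, hx.1], by rw [mul_assoc, hy.2]⟩
theorem Cn.add {E x y : A} (hx : Cn E x) (hy : Cn E y) : Cn E (x + y) :=
  ⟨by rw [mul_add, hx.1, hy.1], by rw [add_mul, hx.2, hy.2]⟩
theorem Cn.smul {E x : A} (hx : Cn E x) (c : ℂ) : Cn E (c • x) :=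
  ⟨by rw [mul_smul_comm, hx.1], by rw [smul_mul_assoc, hx.2]⟩
theorem Cn.sum {E : A} {ι : Type*} {s : Finset ι} {x : ι → A} (hx : ∀ i ∈ s, Cn E (x i)) :
    Cn E (∑ i ∈ s, x i) :=
  ⟨by rw [Finset.mul_sum]; exact Finset.sum_congr rfl fun i hi => (hx i hi).1,
    by rw [Finset.sum_mul]; exact Finset.sum_congr rfl fun i hi => (hx i hi).2⟩

theorem Fr.expand {E : A} {e : Fin 3 → A} (h : Fr E e) {x : A} (hx : Cn E x) :
    x = ∑ i, ∑ j, e i * x * e j := by
  calc x = E * x * E := by rw [hx.1, hx.2]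
    _ = _ := by
      rw [← h.sum, Finset.sum_mul, Finset.sum_mul]
      apply Finset.sum_congr rfl
      intro i _
      rw [Finset.mul_sum]

theorem Fr.cn {E : A} {e : Fin 3 → A} (h : Fr E e) (i : Fin 3) : Cn E (e i) :=
  ⟨h.left i, h.right i⟩

theorem bij_inj {E : A} {e : Fin 3 → A} (h : Fr E e) (hl : ∀ i j, Lk (e i) (e j))
    (f : A →⋆ₙₐ[ℂ] B) (hne : ∀ i, f (e i) ≠ 0) {x : A} (hx : Cn E x) (h0 : f x = 0) : x = 0 := by
  rw [h.expand hx]
  apply Finset.sum_eq_zero
  intro i _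
  apply Finset.sum_eq_zero
  intro j _
  obtain ⟨u, u', h1, h2, h3, h4, h5, h6⟩ := hl i j
  obtain ⟨c, hc⟩ := h.sc i (x * u')
  have h7 : e i * x * e j = c • u := by
    rw [← h2]
    calc e i * x * (u' * u) = (e i * (x * (u' * e i))) * u := by rw [h6]; simp only [mul_assoc]
      _ = (e i * (x * u') * e i) * u := by simp only [mul_assoc]
      _ = c • u := by rw [hc, smul_mul_assoc, h3]
  have h8 : f (e i * x * e j) = 0 := by rw [map_mul, map_mul, h0, mul_zero, zero_mul]
  rw [h7, map_smul] at h8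
  rcases smul_eq_zero.1 h8 with h9 | h9
  · rw [h7, h9, zero_smul]
  · exfalso
    apply hne i
    rw [← h1, map_mul, h9, zero_mul]

theorem bij_surj {E : A} {e : Fin 3 → A} (h : Fr E e) (hl : ∀ i j, Lk (e i) (e j))
    (f : A →⋆ₙₐ[ℂ] B) (h' : Fr (f E) (fun i => f (e i))) {y : B} (hy : Cn (f E) y) :
    ∃ x : A, Cn E x ∧ f x = y := by
  have key : ∀ i j, ∃ x : A, Cn E x ∧ f x = f (e i) * y * f (e j) := by
    intro i j
    obtain ⟨u, u', h1, h2, h3, h4, h5, h6⟩ := hl i j
    obtain ⟨c, hc⟩ := h'.sc i (y * f u')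
    refine ⟨c • u, Cn.smul ⟨?_, ?_⟩ c, ?_⟩
    · rw [← h3, ← mul_assoc, h.left]
    · rw [← h4, mul_assoc, h.right]
    · have h7 : f (e i) * y * f (e j) = c • f u := by
        rw [← h2, map_mul]
        calc f (e i) * y * (f u' * f u) = (f (e i) * (y * (f u' * f (e i)))) * f u := by
              rw [← map_mul f u' (e i), h6]; simp only [mul_assoc]
          _ = (f (e i) * (y * f u') * f (e i)) * f u := by simp only [mul_assoc]
          _ = c • f u := by rw [hc, smul_mul_assoc, ← map_mul, h3]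
      rw [h7, map_smul]
  choose x hx1 hx2 using key
  refine ⟨∑ i, ∑ j, x i j, Cn.sum fun i _ => Cn.sum fun j _ => hx1 i j, ?_⟩
  rw [map_sum]
  conv_rhs => rw [h'.expand hy]
  apply Finset.sum_congr rfl
  intro i _
  rw [map_sum]
  apply Finset.sum_congr rfl
  intro j _
  exact hx2 i j

/-- homomorphism of corners -/
structure CHom (E : A) (E' : B) (t : A → B) : Prop where
  mem : ∀ x, Cn E x → Cn E' (t x)
  mul : ∀ x y, Cn E x → Cn E y → t (x * y) = t x * t y
  add : ∀ x y, Cn E x → Cn E y → t (x + y) = t x + t y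
  smul : ∀ (c : ℂ) (x : A), Cn E x → t (c • x) = c • t x

theorem CHom.comp {C : Type*} [NonUnitalCStarAlgebra C] {E : A} {E' : B} {E'' : C} {t : A → B}
    {t' : B → C} (h : CHom E E' t) (h' : CHom E' E'' t') : CHom E E'' (t' ∘ t) := by
  refine ⟨?_, ?_, ?_, ?_⟩
  · intro x hx; exact h'.mem _ (h.mem _ hx)
  · intro x y hx hy
    show t' (t (x * y)) = _
    rw [h.mul x y hx hy, h'.mul _ _ (h.mem _ hx) (h.mem _ hy)]; rfl
  · intro x y hx hy
    show t' (t (x + y)) = _
    rw [h.add x y hx hy, h'.add _ _ (h.mem _ hx) (h.mem _ hy)]; rfl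
  · intro c x hx
    show t' (t (c • x)) = _
    rw [h.smul c x hx, h'.smul _ _ (h.mem _ hx)]; rfl

theorem step {C : Type*} [NonUnitalCStarAlgebra C] {E : A} {E' : B} (f : A →⋆ₙₐ[ℂ] C)
    (g : B →⋆ₙₐ[ℂ] C) (hE : f E = g E')
    (hinj : ∀ x, Cn E' x → g x = 0 → x = 0)
    (hsurj : ∀ y, Cn (g E') y → ∃ x, Cn E' x ∧ g x = y) :
    ∃ t : A → B, CHom E E' t ∧ ∀ x, Cn E x → g (t x) = f x := by
  classical
  have hfc : ∀ x, Cn E x → Cn (g E') (f x) := by
    intro x hx
    rw [← hE]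
    exact ⟨by rw [← map_mul, hx.1], by rw [← map_mul, hx.2]⟩
  have hex : ∀ x : A, ∃ x' : B, Cn E x → (Cn E' x' ∧ g x' = f x) := by
    intro x
    by_cases hx : Cn E x
    · obtain ⟨x', h1, h2⟩ := hsurj _ (hfc x hx)
      exact ⟨x', fun _ => ⟨h1, h2⟩⟩
    · exact ⟨0, fun h => absurd h hx⟩
  choose t ht using hex
  have hinj' : ∀ x y, Cn E' x → Cn E' y → g x = g y → x = y := by
    intro x y hx hy hxy
    have h1 : Cn E' (x - y) :=
      ⟨by rw [mul_sub, hx.1, hy.1], by rw [sub_mul, hx.2, hy.2]⟩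
    exact sub_eq_zero.1 (hinj _ h1 (by rw [map_sub, hxy, sub_self]))
  refine ⟨t, ⟨fun x hx => (ht x hx).1, ?_, ?_, ?_⟩, fun x hx => (ht x hx).2⟩
  · intro x y hx hy
    apply hinj' _ _ (ht _ (hx.mul hy)).1 ((ht x hx).1.mul (ht y hy).1)
    rw [(ht _ (hx.mul hy)).2, map_mul, map_mul, (ht x hx).2, (ht y hy).2]
  · intro x y hx hy
    apply hinj' _ _ (ht _ (hx.add hy)).1 ((ht x hx).1.add (ht y hy).1)
    rw [(ht _ (hx.add hy)).2, map_add, map_add, (ht x hx).2, (ht y hy).2]
  · intro c x hx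
    apply hinj' _ _ (ht _ (hx.smul c)).1 ((ht x hx).1.smul c)
    rw [(ht _ (hx.smul c)).2, map_smul, map_smul, (ht x hx).2]

/-- rigidity of linear monodromy -/
theorem core {E : A} {e : Fin 3 → A} (hF : Fr E e) (hl : ∀ i j, Lk (e i) (e j)) {α : A → A}
    (hα : CHom E E α) (he0 : α (e 0) = e 1) (he1 : α (e 1) = e 2) (he2 : α (e 2) = e 0)
    {f f' : A} (hf : Cn E f) (h1 : α f = f') (h2 : α f' = f) : f = f' := by
  obtain ⟨u, u', a1, a2, a3, a4, a5, a6⟩ := hl 1 0
  have cu : Cn E u := ⟨by rw [← a3, ← mul_assoc, hF.left], by rw [← a4, mul_assoc, hF.right]⟩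
  have cu' : Cn E u' := ⟨by rw [← a5, ← mul_assoc, hF.left], by rw [← a6, mul_assoc, hF.right]⟩
  have ce := fun i => hF.cn i
  obtain ⟨v, hv⟩ : ∃ v, v = α u := ⟨_, rfl⟩
  obtain ⟨v', hv'⟩ : ∃ v', v' = α u' := ⟨_, rfl⟩
  obtain ⟨w, hw⟩ : ∃ w, w = α v := ⟨_, rfl⟩
  obtain ⟨w', hw'⟩ : ∃ w', w' = α v' := ⟨_, rfl⟩
  have cv : Cn E v := by rw [hv]; exact hα.mem _ cu
  have cv' : Cn E v' := by rw [hv']; exact hα.mem _ cu'
  have cw : Cn E w := by rw [hw]; exact hα.mem _ cv
  have cw' : Cn E w' := by rw [hw']; exact hα.mem _ cv'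
  have b1 : v * v' = e 2 := by rw [hv, hv', ← hα.mul _ _ cu cu', a1, he1]
  have b2 : v' * v = e 1 := by rw [hv, hv', ← hα.mul _ _ cu' cu, a2, he0]
  have b3 : e 2 * v = v := by rw [hv, ← he1, ← hα.mul _ _ (ce 1) cu, a3]
  have b4 : v * e 1 = v := by rw [hv, ← he0, ← hα.mul _ _ cu (ce 0), a4]
  have b5 : e 1 * v' = v' := by rw [hv', ← he0, ← hα.mul _ _ (ce 0) cu', a5]
  have b6 : v' * e 2 = v' := by rw [hv', ← he1, ← hα.mul _ _ cu' (ce 1), a6]
  have c1 : w * w' = e 0 := by rw [hw, hw', ← hα.mul _ _ cv cv', b1, he2]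
  have c2 : w' * w = e 2 := by rw [hw, hw', ← hα.mul _ _ cv' cv, b2, he1]
  have c3 : e 0 * w = w := by rw [hw, ← he2, ← hα.mul _ _ (ce 2) cv, b3]
  have c4 : w * e 2 = w := by rw [hw, ← he1, ← hα.mul _ _ cv (ce 1), b4]
  have c5 : e 2 * w' = w' := by rw [hw', ← he1, ← hα.mul _ _ (ce 1) cv', b5]
  have c6 : w' * e 0 = w' := by rw [hw', ← he2, ← hα.mul _ _ cv' (ce 2), b6]
  have d3 : e 1 * α w = α w := by rw [← he0, ← hα.mul _ _ (ce 0) cw, c3]
  have d4 : α w * e 0 = α w := by rw [← he2, ← hα.mul _ _ cw (ce 2), c4]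
  have d5 : e 0 * α w' = α w' := by rw [← he2, ← hα.mul _ _ (ce 2) cw', c5]
  have d6 : α w' * e 1 = α w' := by rw [← he0, ← hα.mul _ _ cw' (ce 0), c6]
  obtain ⟨ζ, hζ⟩ := hF.sc 1 (α w * u')
  have hζ' : α w = ζ • u := by
    calc α w = α w * (u' * u) := by rw [a2, d4]
      _ = ((e 1 * α w) * (u' * e 1)) * u := by rw [d3, a6]; simp only [mul_assoc]
      _ = (e 1 * (α w * u') * e 1) * u := by simp only [mul_assoc]
      _ = ζ • u := by rw [hζ, smul_mul_assoc, a3]
  obtain ⟨κ, hκ⟩ := hF.sc 0 (w * v * u)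
  have hκ' : w * v * u = κ • e 0 := by
    rw [← hκ]
    calc w * v * u = ((e 0 * w) * v) * (u * e 0) := by rw [c3, a4]
      _ = _ := by simp only [mul_assoc]
  have hκ0 : κ ≠ 0 := by
    intro h0
    rw [h0, zero_smul] at hκ'
    apply hF.ne 0
    calc e 0 = u' * ((v' * ((w' * w) * v)) * u) := by rw [c2, b3, b2, a3, a2]
      _ = u' * (v' * (w' * (w * v * u))) := by simp only [mul_assoc]
      _ = 0 := by rw [hκ']; simp
  have hrot : u * w * v = κ • e 1 := by
    calc u * w * v = u * w * (v * (u * u')) := by rw [a1, b4]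
      _ = u * (w * v * u) * u' := by simp only [mul_assoc]
      _ = κ • e 1 := by rw [hκ', mul_smul_comm, a4, smul_mul_assoc, a1]
  have hζ1 : ζ = 1 := by
    have h3 : α (w * v * u) = (ζ * κ) • e 1 := by
      rw [hα.mul _ _ (cw.mul cv) cu, hα.mul _ _ cw cv, hζ', ← hw, ← hv, smul_mul_assoc,
        smul_mul_assoc, hrot, smul_smul]
    rw [hκ', hα.smul _ _ (ce 0), he0] at h3
    have h4 : (κ - ζ * κ) • e 1 = 0 := by rw [sub_smul, ← h3, sub_self]
    rcases smul_eq_zero.1 h4 with h5 | h5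
    · have h6 : κ * (1 - ζ) = 0 := by rw [← h5]; ring
      rcases mul_eq_zero.1 h6 with h7 | h7
      · exact absurd h7 hκ0
      · exact (sub_eq_zero.1 h7).symm
    · exact absurd h5 (hF.ne 1)
  have hαw : α w = u := by rw [hζ', hζ1, one_smul]
  have hαw' : α w' = u' := by
    have h3 : α w' * u = e 0 := by
      rw [← hαw, ← hα.mul _ _ cw' cw, c2, he2]
    calc α w' = α w' * (u * u') := by rw [a1, d6]
      _ = u' := by rw [← mul_assoc, h3, a5]
  obtain ⟨β, hβ⟩ : ∃ β : A → A, β = α ∘ (α ∘ α) := ⟨_, rfl⟩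
  have hβc : CHom E E β := by rw [hβ]; exact (hα.comp hα).comp hα
  have be : ∀ i, β (e i) = e i := by
    intro i
    rw [hβ]
    show α (α (α (e i))) = e i
    fin_cases i
    · show α (α (α (e 0))) = e 0
      rw [he0, he1, he2]
    · show α (α (α (e 1))) = e 1
      rw [he1, he2, he0]
    · show α (α (α (e 2))) = e 2
      rw [he2, he0, he1]
  have bu : β u = u := by rw [hβ]; show α (α (α u)) = u; rw [← hv, ← hw, hαw]
  have bu' : β u' = u' := by rw [hβ]; show α (α (α u')) = u'; rw [← hv', ← hw', hαw']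
  have bv : β v = v := by rw [hβ]; show α (α (α v)) = v; rw [← hw, hαw, ← hv]
  have bv' : β v' = v' := by rw [hβ]; show α (α (α v')) = v'; rw [← hw', hαw', ← hv']
  have bw : β w = w := by rw [hβ]; show α (α (α w)) = w; rw [hαw, ← hv, ← hw]
  have bw' : β w' = w' := by rw [hβ]; show α (α (α w')) = w'; rw [hαw', ← hv', ← hw']
  have piece : ∀ (i j : Fin 3) (s s' : A), β s = s → Cn E s → s' * s = e j → e i * s = s →
      s' * e i = s' → ∀ y, Cn E y → β (e i * y * e j) = e i * y * e j := by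
    intro i j s s' g1 g0 g2 g3 g4 y hy
    obtain ⟨c, hc⟩ := hF.sc i (y * s')
    have g5 : e i * y * e j = c • s := by
      rw [← g2]
      calc e i * y * (s' * s) = (e i * (y * (s' * e i))) * s := by rw [g4]; simp only [mul_assoc]
        _ = (e i * (y * s') * e i) * s := by simp only [mul_assoc]
        _ = c • s := by rw [hc, smul_mul_assoc, g3]
    rw [g5, hβc.smul c s g0, g1]
  have allp : ∀ (i j : Fin 3) (y : A), Cn E y → β (e i * y * e j) = e i * y * e j := by
    intro i j y hy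
    fin_cases i <;> fin_cases j
    · exact piece 0 0 (e 0) (e 0) (be 0) (ce 0) (hF.p 0).mul (hF.p 0).mul (hF.p 0).mul y hy
    · exact piece 0 1 u' u bu' cu' a1 a5 a4 y hy
    · exact piece 0 2 w w' bw cw c2 c3 c6 y hy
    · exact piece 1 0 u u' bu cu a2 a3 a6 y hy
    · exact piece 1 1 (e 1) (e 1) (be 1) (ce 1) (hF.p 1).mul (hF.p 1).mul (hF.p 1).mul y hy
    · exact piece 1 2 v' v bv' cv' b1 b5 b4 y hy
    · exact piece 2 0 w' w bw' cw' c1 c5 c4 y hy
    · exact piece 2 1 v v' bv cv b2 b3 b6 y hy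
    · exact piece 2 2 (e 2) (e 2) (be 2) (ce 2) (hF.p 2).mul (hF.p 2).mul (hF.p 2).mul y hy
  have csum : ∀ (s : Finset (Fin 3)) (x : Fin 3 → A), (∀ i, Cn E (x i)) →
      (∀ i, β (x i) = x i) → β (∑ i ∈ s, x i) = ∑ i ∈ s, x i := by
    intro s x hx hb
    induction s using Finset.induction_on with
    | empty =>
      rw [Finset.sum_empty]
      have := hβc.smul 0 (e 0) (ce 0)
      rwa [zero_smul, zero_smul] at this
    | insert a s ha ih =>
      rw [Finset.sum_insert ha, hβc.add _ _ (hx a) (Cn.sum fun i _ => hx i), ih, hb]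
  have ceye : ∀ (i j : Fin 3) (y : A), Cn E (e i * y * e j) := by
    intro i j y
    exact ⟨by rw [← mul_assoc, ← mul_assoc, hF.left], by rw [mul_assoc, hF.right]⟩
  have bf : β f = f := by
    have h3 := hF.expand hf
    conv_lhs => rw [h3]
    conv_rhs => rw [h3]
    exact csum _ _ (fun i => Cn.sum fun j _ => ceye i j f)
      (fun i => csum _ _ (fun j => ceye i j f) (fun j => allp i j f hf))
  rw [hβ] at bf
  have h3 : α (α (α f)) = f := bf
  rw [h1, h2, h1] at h3
  exact h3.symm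

end

end Pool.Agent.H494R3.LD
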