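import Pool.Agent.H494R3.LD.Defs

set_option autoImplicit false

/-!
The diagram.
-/

namespace Pool.Agent.H494R3.LD

/-- the index lattice -/
abbrev PP : Type := (Bool × Bool × Bool) × (Bool × Bool)

/-- types of positions -/
inductive Ty
  | B | M | L | T | Z
  deriving DecidableEq

/-- the type of a position -/
def ty : PP → Ty
  | (_, (false, false)) => Ty.B
  | ((false, false, false), _) => Ty.B
  | ((true, true, true), _) => Ty.Z
  | (_, (true, false)) => Ty.M
  | (_, (false, true)) => Ty.L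
  | (_, (true, true)) => Ty.T

def tle : Ty → Ty → Bool
  | Ty.B, _ => true
  | Ty.M, Ty.M => true
  | Ty.M, Ty.T => true
  | Ty.M, Ty.Z => true
  | Ty.L, Ty.L => true
  | Ty.L, Ty.T => true
  | Ty.L, Ty.Z => true
  | Ty.T, Ty.T => true
  | Ty.T, Ty.Z => true
  | Ty.Z, Ty.Z => true
  | _, _ => false

/-- the edge carrying the twist -/
def tw (p q : PP) : Bool :=
  decide (p.1 = (true, false, false)) && decide (q.1 = (true, false, true))

theorem ty_mono : ∀ p q : PP, p ≤ q → tle (ty p) (ty q) = true := by decide +kernel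

theorem top_ty : ∀ r : PP, r.1 = (true, true, true) → ty r = Ty.Z ∨ ty r = Ty.B := by decide +kernel

theorem bot_ty : ∀ r : PP, r.1 = (false, false, false) → ty r = Ty.B := by decide +kernel

theorem tw1 : ∀ c : Bool × Bool × Bool, (true, false, true) ≤ c →
    (c = (true, false, true) ∨ c = (true, true, true)) := by
  decide +kernel

theorem tw2 : ∀ a : Bool × Bool × Bool, a ≤ (true, false, false) →
    (a = (true, false, false) ∨ a = (false, false, false)) := by
  decide +kernel

theorem tw3 : ∀ b : Bool × Bool × Bool, (true, false, false) ≤ b → b ≤ (true, false, true) →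
    (b = (true, false, false) ∨ b = (true, false, true)) := by
  decide +kernel

theorem tw_iff {p q : PP} : tw p q = true ↔ p.1 = (true, false, false) ∧
    q.1 = (true, false, true) := by
  unfold tw
  rw [Bool.and_eq_true, decide_eq_true_iff, decide_eq_true_iff]

theorem tw_self (p : PP) : tw p p = false := by
  rw [Bool.eq_false_iff]
  intro h
  have h1 := tw_iff.1 h
  rw [h1.1] at h1
  exact absurd h1.2 (by decide)

section
variable {X : Ty → Type} (Φ : ∀ a b : Ty, X a → X b) (g : ∀ a : Ty, X a → X a)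

/-- the transition function -/
def Fn (p q : PP) (x : X (ty p)) : X (ty q) :=
  if tw p q = true then g _ (Φ _ _ x) else Φ _ _ x

variable (hid : ∀ a x, Φ a a x = x)
  (hcomp : ∀ a b c, tle a b = true → tle b c = true → ∀ x, Φ b c (Φ a b x) = Φ a c x)
  (hg : ∀ a b, tle a b = true → ∀ x, g b (Φ a b x) = Φ a b (g a x))
  (gB : ∀ x, g Ty.B x = x) (gZ : ∀ x, g Ty.Z x = x)

include hid in
theorem Fn_id (p : PP) (x : X (ty p)) : Fn Φ g p p x = x := by
  unfold Fn
  rw [tw_self, if_neg (by simp), hid]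

include hcomp hg gB gZ in
theorem Fn_comp (p q r : PP) (h : p ≤ q) (h' : q ≤ r) (x : X (ty p)) :
    Fn Φ g q r (Fn Φ g p q x) = Fn Φ g p r x := by
  have h1 := ty_mono p q h
  have h2 := ty_mono q r h'
  have gid : ∀ a : Ty, (a = Ty.Z ∨ a = Ty.B) → ∀ y, g a y = y := by
    rintro a (rfl | rfl)
    · exact gZ
    · exact gB
  unfold Fn
  by_cases hpq : tw p q = true
  · rw [if_pos hpq]
    have hpq' := tw_iff.1 hpq
    by_cases hqr : tw q r = true
    · exfalso
      have hqr' := tw_iff.1 hqr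
      rw [hpq'.2] at hqr'
      exact absurd hqr'.1 (by decide)
    · rw [if_neg hqr, ← hg _ _ h2, hcomp _ _ _ h1 h2]
      rcases tw1 r.1 (hpq'.2 ▸ h'.1) with h3 | h3
      · rw [if_pos (tw_iff.2 ⟨hpq'.1, h3⟩)]
      · rw [if_neg (by
          intro h4
          have := (tw_iff.1 h4).2
          rw [h3] at this
          exact absurd this (by decide))]
        exact gid _ (top_ty r h3) _
  · rw [if_neg hpq]
    by_cases hqr : tw q r = true
    · rw [if_pos hqr, hcomp _ _ _ h1 h2]
      have hqr' := tw_iff.1 hqr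
      rcases tw2 p.1 (hqr'.1 ▸ h.1) with h3 | h3
      · rw [if_pos (tw_iff.2 ⟨h3, hqr'.2⟩)]
      · rw [if_neg (by
          intro h4
          have := (tw_iff.1 h4).1
          rw [h3] at this
          exact absurd this (by decide))]
        have h5 := bot_ty p h3
        have h6 : tle (ty p) (ty r) = true := ty_mono p r (h.trans h')
        rw [hg _ _ h6, gid _ (Or.inr h5)]
    · rw [if_neg hqr, hcomp _ _ _ h1 h2]
      rw [if_neg (by
        intro h4
        have h5 := tw_iff.1 h4
        rcases tw3 q.1 (h5.1 ▸ h.1) (h5.2 ▸ h'.1) with h6 | h6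
        · exact hqr (tw_iff.2 ⟨h6, h5.2⟩)
        · exact hpq (tw_iff.2 ⟨h5.1, h6⟩))]

end

/-! ### the monoids -/

def sz : Ty → ℕ
  | Ty.B => 1
  | Ty.M => 3
  | Ty.L => 3
  | Ty.T => 1
  | Ty.Z => 0

abbrev XM (a : Ty) : Type := Fin (sz a) → ℕ

def nBM : (Fin 1 → ℕ) →+ (Fin 3 → ℕ) where
  toFun x := fun _ => x 0
  map_zero' := rfl
  map_add' _ _ := rfl

def nMT : (Fin 3 → ℕ) →+ (Fin 1 → ℕ) where
  toFun x := fun _ => x 0 + x 1 + x 2
  map_zero' := rfl
  map_add' x y := by
    funext i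
    simp only [Pi.add_apply]
    omega

def nGM : (Fin 3 → ℕ) →+ (Fin 3 → ℕ) where
  toFun x := fun i => x (i + 2)
  map_zero' := rfl
  map_add' _ _ := rfl

def nGL : (Fin 3 → ℕ) →+ (Fin 3 → ℕ) where
  toFun x := fun i => x (Equiv.swap 1 2 i)
  map_zero' := rfl
  map_add' _ _ := rfl

theorem nMT_GM (x : Fin 3 → ℕ) : nMT (nGM x) = nMT x := by
  funext i
  show x (0 + 2) + x (1 + 2) + x (2 + 2) = x 0 + x 1 + x 2
  have e1 : (0 + 2 : Fin 3) = 2 := rfl
  have e2 : (1 + 2 : Fin 3) = 0 := rfl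
  have e3 : (2 + 2 : Fin 3) = 1 := rfl
  rw [e1, e2, e3]
  omega

theorem nMT_GL (x : Fin 3 → ℕ) : nMT (nGL x) = nMT x := by
  funext i
  show x (Equiv.swap 1 2 0) + x (Equiv.swap 1 2 1) + x (Equiv.swap 1 2 2) = x 0 + x 1 + x 2
  have e1 : Equiv.swap (1 : Fin 3) 2 0 = 0 := by decide
  have e2 : Equiv.swap (1 : Fin 3) 2 1 = 2 := by decide
  have e3 : Equiv.swap (1 : Fin 3) 2 2 = 1 := by decide
  rw [e1, e2, e3]
  omega

def nMap : ∀ a b : Ty, XM a →+ XM b
  | Ty.B, Ty.B => AddMonoidHom.id _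
  | Ty.B, Ty.M => nBM
  | Ty.B, Ty.L => nBM
  | Ty.B, Ty.T => nMT.comp nBM
  | Ty.M, Ty.M => AddMonoidHom.id _
  | Ty.M, Ty.T => nMT
  | Ty.L, Ty.L => AddMonoidHom.id _
  | Ty.L, Ty.T => nMT
  | Ty.T, Ty.T => AddMonoidHom.id _
  | Ty.Z, Ty.Z => AddMonoidHom.id _
  | _, _ => 0

def nG : ∀ a : Ty, XM a →+ XM a
  | Ty.B => AddMonoidHom.id _
  | Ty.M => nGM
  | Ty.L => nGL
  | Ty.T => AddMonoidHom.id _
  | Ty.Z => AddMonoidHom.id _

theorem nMap_id (a : Ty) (x : XM a) : nMap a a x = x := by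
  cases a <;> rfl

theorem XZ_eq (x y : XM Ty.Z) : x = y := by
  funext i
  exact i.elim0

theorem nMap_comp (a b c : Ty) (h : tle a b = true) (h' : tle b c = true) (x : XM a) :
    nMap b c (nMap a b x) = nMap a c x := by
  cases c
  case Z => exact XZ_eq _ _
  all_goals
    cases b <;> (try exact absurd h' (by decide)) <;> cases a <;>
      (try exact absurd h (by decide)) <;> rfl

theorem nG_nMap (a b : Ty) (h : tle a b = true) (x : XM a) :
    nG b (nMap a b x) = nMap a b (nG a x) := by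
  cases b
  case Z => exact XZ_eq _ _
  all_goals
    cases a <;> (try exact absurd h (by decide)) <;> try rfl
  · exact (nMT_GM x).symm
  · exact (nMT_GL x).symm

/-- the transition homomorphism -/
def nF (p q : PP) : XM (ty p) →+ XM (ty q) :=
  if tw p q = true then (nG (ty q)).comp (nMap (ty p) (ty q)) else nMap (ty p) (ty q)

theorem nF_eq (p q : PP) (x : XM (ty p)) :
    nF p q x = Fn (X := XM) (fun a b => nMap a b) (fun a => nG a) p q x := by
  unfold nF Fn
  split_ifs <;> rfl

/-- the diagram of simplicial monoids -/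
def DD : Diag PP where
  obj p := XM (ty p)
  mon _ := inferInstance
  simplicial p := ⟨sz (ty p), ⟨AddEquiv.refl _⟩⟩
  map p q _ := nF p q
  map_id p x := by
    rw [nF_eq]
    exact Fn_id _ _ nMap_id p x
  map_comp p q r h h' x := by
    rw [nF_eq, nF_eq, nF_eq]
    exact Fn_comp _ _ nMap_comp nG_nMap (fun _ => rfl) (fun _ => rfl) p q r h h' x

end Pool.Agent.H494R3.LD
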