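import Pool.Agent.H494R3.LD.Defs

set_option autoImplicit false

/-!
`V` of finite products of matrix algebras over a field of characteristic zero.
-/

namespace Pool.Agent.H494R3.LD

/-- idempotent matrices over a field split -/
theorem splitK {K : Type} [Field K] {ι : Type} [Fintype ι] [DecidableEq ι] (E : Matrix ι ι K)
    (hE : E * E = E) : ∃ (r : ℕ) (X : Matrix ι (Fin r) K) (Y : Matrix (Fin r) ι K),
      X * Y = E ∧ Y * X = 1 := by
  obtain ⟨f, hf⟩ : ∃ f : (ι → K) →ₗ[K] (ι → K), f = Matrix.toLin' E := ⟨_, rfl⟩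
  have hff : f ∘ₗ f = f := by
    rw [hf, ← Matrix.toLin'_mul, hE]
  obtain ⟨b⟩ : Nonempty (Module.Basis (Fin (Module.finrank K (LinearMap.range f))) K
      (LinearMap.range f)) := ⟨Module.finBasis K (LinearMap.range f)⟩
  refine ⟨Module.finrank K (LinearMap.range f),
    LinearMap.toMatrix b (Pi.basisFun K ι) (LinearMap.range f).subtype,
    LinearMap.toMatrix (Pi.basisFun K ι) b f.rangeRestrict, ?_, ?_⟩
  · rw [← LinearMap.toMatrix_comp]
    have h1 : (LinearMap.range f).subtype ∘ₗ f.rangeRestrict = f := by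
      ext x; rfl
    rw [h1, hf]
    exact LinearMap.toMatrix'_toLin' E
  · rw [← LinearMap.toMatrix_comp]
    have h1 : f.rangeRestrict ∘ₗ (LinearMap.range f).subtype = LinearMap.id := by
      ext ⟨x, y, hy⟩ i
      show (f x) i = x i
      rw [← hy]
      exact congrFun (congrArg (fun g : (ι → K) →ₗ[K] (ι → K) => g y) hff) i
    rw [h1, LinearMap.toMatrix_id]

theorem regK {K : Type} [Field K] {d : ℕ} (E : Matrix (Fin d) (Fin d) K) :
    ∃ F : Matrix (Fin d) (Fin d) K, E * F * E = E := by
  obtain ⟨f, hf⟩ : ∃ f : (Fin d → K) →ₗ[K] (Fin d → K), f = Matrix.toLin' E := ⟨_, rfl⟩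
  obtain ⟨s, hs⟩ := f.rangeRestrict.exists_rightInverse_of_surjective
    (LinearMap.range_rangeRestrict f)
  obtain ⟨p, hp⟩ := (LinearMap.range f).subtype.exists_leftInverse_of_injective
    (Submodule.ker_subtype _)
  refine ⟨LinearMap.toMatrix' (s ∘ₗ p), ?_⟩
  have h1 : f ∘ₗ (s ∘ₗ p) ∘ₗ f = f := by
    apply LinearMap.ext
    intro x
    have h2 : p (f x) = ⟨f x, LinearMap.mem_range_self f x⟩ :=
      congrArg (fun g : LinearMap.range f →ₗ[K] LinearMap.range f =>
        g ⟨f x, LinearMap.mem_range_self f x⟩) hp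
    show f (s (p (f x))) = f x
    rw [h2]
    have h3 := congrArg (fun g : LinearMap.range f →ₗ[K] LinearMap.range f =>
        (g ⟨f x, LinearMap.mem_range_self f x⟩ : Fin d → K)) hs
    exact h3
  have h2 : E = LinearMap.toMatrix' f := by rw [hf, LinearMap.toMatrix'_toLin']
  rw [h2, ← LinearMap.toMatrix'_comp, ← LinearMap.toMatrix'_comp, LinearMap.comp_assoc, h1]

section
variable {s d : ℕ} {K : Type} [Field K]

/-- the product of `s` copies of the `d × d` matrix ring -/
abbrev Rsd (s d : ℕ) (K : Type) : Type := Fin s → Matrix (Fin d) (Fin d) K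

theorem rsd_reg (x : Rsd s d K) : ∃ y : Rsd s d K, x * y * x = x := by
  choose y hy using fun i => regK (x i)
  exact ⟨y, funext hy⟩

/-- flattening of the `i`-th coordinate -/
def fl {k l : ℕ} (i : Fin s) (E : Matrix (Fin k) (Fin l) (Rsd s d K)) :
    Matrix (Fin k × Fin d) (Fin l × Fin d) K := Matrix.of fun a b => E a.1 b.1 i a.2 b.2

theorem fl_mul {k l m : ℕ} (i : Fin s) (E : Matrix (Fin k) (Fin l) (Rsd s d K))
    (F : Matrix (Fin l) (Fin m) (Rsd s d K)) : fl i (E * F) = fl i E * fl i F := by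
  ext a b
  rw [Matrix.mul_apply, Fintype.sum_prod_type]
  show (E * F) a.1 b.1 i a.2 b.2 = _
  rw [Matrix.mul_apply, Finset.sum_apply, Matrix.sum_apply]
  apply Finset.sum_congr rfl
  intro c _
  rw [Pi.mul_apply, Matrix.mul_apply]
  rfl

omit [Field K] in
theorem fl_ext {k l : ℕ} {E F : Matrix (Fin k) (Fin l) (Rsd s d K)}
    (h : ∀ i, fl i E = fl i F) : E = F := by
  ext a b i x y
  exact congrFun (congrFun (h i) (a, x)) (b, y)

omit [Field K] in
theorem fl_surj {k l : ℕ} (A : ∀ _ : Fin s, Matrix (Fin k × Fin d) (Fin l × Fin d) K) :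
    ∃ E : Matrix (Fin k) (Fin l) (Rsd s d K), ∀ i, fl i E = A i :=
  ⟨Matrix.of fun a b i => Matrix.of fun x y => A i (a, x) (b, y), fun _ => rfl⟩

/-- the trace of the `i`-th coordinate -/
def tau {k : ℕ} (i : Fin s) (E : Matrix (Fin k) (Fin k) (Rsd s d K)) : K :=
  ∑ a, (E a a i).trace

theorem tau_fl {k : ℕ} (i : Fin s) (E : Matrix (Fin k) (Fin k) (Rsd s d K)) :
    tau i E = (fl i E).trace := by
  unfold tau Matrix.trace
  rw [Fintype.sum_prod_type]
  rfl

variable [CharZero K]

open Classical in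
/-- the natural number equal to a given element -/
noncomputable def natOf (x : K) : ℕ := if h : ∃ n : ℕ, (n : K) = x then h.choose else 0

theorem natOf_cast (n : ℕ) : natOf (n : K) = n := by
  have h : ∃ m : ℕ, (m : K) = n := ⟨n, rfl⟩
  unfold natOf
  rw [dif_pos h]
  exact Nat.cast_injective h.choose_spec

/-- the rank function -/
noncomputable def rk (k : ℕ) (E : Matrix (Fin k) (Fin k) (Rsd s d K)) : Fin s → ℕ :=
  fun i => natOf (tau i E)

theorem split_fl {k : ℕ} {E : Matrix (Fin k) (Fin k) (Rsd s d K)} (hE : E * E = E) (i : Fin s) :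
    ∃ (r : ℕ) (X : Matrix (Fin k × Fin d) (Fin r) K) (Y : Matrix (Fin r) (Fin k × Fin d) K),
      X * Y = fl i E ∧ Y * X = 1 ∧ rk k E i = r ∧ tau i E = (r : K) := by
  obtain ⟨r, X, Y, h1, h2⟩ := splitK (fl i E) (by rw [← fl_mul, hE])
  have h3 : tau i E = (r : K) := by
    rw [tau_fl, ← h1, Matrix.trace_mul_comm, h2, Matrix.trace_one, Fintype.card_fin]
  have h4 : rk k E i = r := by
    unfold rk
    rw [h3, natOf_cast]
  exact ⟨r, X, Y, h1, h2, h4, h3⟩

theorem rk_cast {k : ℕ} {E : Matrix (Fin k) (Fin k) (Rsd s d K)} (hE : E * E = E) (i : Fin s) :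
    (rk k E i : K) = tau i E := by
  obtain ⟨r, _, _, _, _, h, h'⟩ := split_fl hE i
  rw [h, h']

theorem rk_eq {k : ℕ} {E : Matrix (Fin k) (Fin k) (Rsd s d K)} {n : Fin s → ℕ}
    (h : ∀ i, tau i E = (n i : K)) : rk k E = n := by
  funext i
  unfold rk
  rw [h i, natOf_cast]

theorem rsd_V (hd : 0 < d) : IsVRing (Rsd s d K) (Fin s → ℕ) rk where
  equiv k l e f he hf := by
    constructor
    · intro h
      have key : ∀ i : Fin s, ∃ (x : Matrix (Fin k × Fin d) (Fin l × Fin d) K)
          (y : Matrix (Fin l × Fin d) (Fin k × Fin d) K), x * y = fl i e ∧ y * x = fl i f := by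
        intro i
        obtain ⟨r, X, Y, h1, h2, h3, _⟩ := split_fl he i
        obtain ⟨r', X', Y', h1', h2', h3', _⟩ := split_fl hf i
        have hr : r = r' := by rw [← h3, ← h3', h]
        subst hr
        refine ⟨X * Y', X' * Y, ?_, ?_⟩
        · rw [Matrix.mul_assoc, ← Matrix.mul_assoc Y', h2', Matrix.one_mul, h1]
        · rw [Matrix.mul_assoc, ← Matrix.mul_assoc Y, h2, Matrix.one_mul, h1']
      choose x y h1 h2 using key
      obtain ⟨x', hx'⟩ := fl_surj x
      obtain ⟨y', hy'⟩ := fl_surj y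
      refine ⟨x', y', fl_ext fun i => ?_, fl_ext fun i => ?_⟩
      · rw [fl_mul, hx', hy', h1]
      · rw [fl_mul, hx', hy', h2]
    · rintro ⟨x, y, h1, h2⟩
      funext i
      unfold rk
      rw [tau_fl, tau_fl, ← h1, ← h2, fl_mul, fl_mul, Matrix.trace_mul_comm]
  add k l e f he hf := by
    apply rk_eq
    intro i
    rw [Pi.add_apply, Nat.cast_add, rk_cast he, rk_cast hf]
    unfold tau
    rw [Fin.sum_univ_add]
    simp [bdiag]
  surj m := by
    obtain ⟨N, hN⟩ : ∃ N : ℕ, ∀ i, m i ≤ N := ⟨∑ i, m i, fun i =>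
      Finset.single_le_sum (f := m) (fun _ _ => Nat.zero_le _) (Finset.mem_univ i)⟩
    obtain ⟨z⟩ : Nonempty (Fin d) := ⟨⟨0, hd⟩⟩
    obtain ⟨c, hc⟩ : ∃ c : Fin N → Rsd s d K, c = fun (a : Fin N) (i : Fin s) =>
      if (a : ℕ) < m i then Matrix.single z z (1 : K) else 0 := ⟨_, rfl⟩
    have hcc : ∀ a, c a * c a = c a := by
      intro a
      funext i
      rw [hc]
      show (if (a : ℕ) < m i then Matrix.single z z (1 : K) else 0) *
        (if (a : ℕ) < m i then Matrix.single z z (1 : K) else 0) =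
        (if (a : ℕ) < m i then Matrix.single z z (1 : K) else 0)
      by_cases h : (a : ℕ) < m i
      · rw [if_pos h]; simp
      · rw [if_neg h]; simp
    refine ⟨N, Matrix.diagonal c, ?_, ?_⟩
    · rw [Matrix.diagonal_mul_diagonal]
      congr 1
      funext a
      exact hcc a
    · apply rk_eq
      intro i
      unfold tau
      have h1 : ∀ a : Fin N, ((Matrix.diagonal c) a a i).trace =
          (fun a : ℕ => if a < m i then (1 : K) else 0) a := by
        intro a
        rw [Matrix.diagonal_apply_eq, hc]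
        show (if (a : ℕ) < m i then Matrix.single z z (1 : K) else 0).trace = _
        split_ifs with h
        · rw [Matrix.trace_single_eq_same]; simp [h]
        · rw [Matrix.trace_zero]; simp [h]
      rw [Finset.sum_congr rfl (fun a _ => h1 a),
        Fin.sum_univ_eq_sum_range (fun a : ℕ => if a < m i then (1 : K) else 0) N,
        ← Finset.sum_filter]
      have h2 : (Finset.range N).filter (fun a => a < m i) = Finset.range (m i) := by
        ext a
        simp only [Finset.mem_filter, Finset.mem_range]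
        have := hN i
        omega
      rw [h2]
      simp

end

end Pool.Agent.H494R3.LD
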