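import Pool.Agent.H494R3.LD.C5
import Pool.Agent.H494R3.LD.C6
import Pool.Agent.H494R3.EX.A5

set_option autoImplicit false

/-!
The lifting by regular rings.
-/

namespace Pool.Agent.H494R3.LD

open Pool.Agent.H494R3.EX (Fl Fmap xF Vr vrm Fmap_x)

/-- the field of rational functions -/
abbrev KK : Type := Fl (Fin 5)

def pf : Fin 5 → Fin 5 := ![1, 2, 0, 4, 3]

theorem pf_inj : Function.Injective pf := by decide

/-- the endomorphism permuting the variables -/
noncomputable def sg : KK →+* KK := Fmap pf pf_inj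

noncomputable def vx (i : Fin 5) : KK := xF (i, i, 0, Sum.inl 0)

theorem sg_vx (i : Fin 5) : sg (vx i) = vx (pf i) := Fmap_x pf pf_inj _

theorem xF_inj {v w : Vr (Fin 5)} (h : xF v = xF w) : v = w :=
  MvPolynomial.X_injective (IsFractionRing.injective _ (Fl (Fin 5)) h)

theorem vx_inj : Function.Injective vx := by
  intro i j h
  have := xF_inj h
  exact congrArg Prod.fst this

theorem vx_ne (i : Fin 5) : vx i ≠ 0 := by
  intro h
  have h1 : (MvPolynomial.X (i, i, 0, Sum.inl 0) : MvPolynomial (Vr (Fin 5)) ℚ) = 0 := by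
    apply IsFractionRing.injective _ (Fl (Fin 5))
    rw [map_zero]
    exact h
  exact MvPolynomial.X_ne_zero _ h1

section
variable (G : Matrix (Fin 3) (Fin 3) KK)

/-- the embedding of the diagonal algebra -/
noncomputable def rMT (hG : IsUnit G.det) : Rsd 3 1 KK →ₙ+* Rsd 1 3 KK where
  toFun x := fun _ => G * Matrix.diagonal (fun i => x i 0 0) * G⁻¹
  map_zero' := by
    funext i
    show G * Matrix.diagonal (fun _ => (0 : KK)) * G⁻¹ = 0
    rw [Matrix.diagonal_zero, Matrix.mul_zero, Matrix.zero_mul]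
  map_add' x y := by
    funext i
    show G * Matrix.diagonal (fun i => x i 0 0 + y i 0 0) * G⁻¹ =
      G * Matrix.diagonal (fun i => x i 0 0) * G⁻¹ + G * Matrix.diagonal (fun i => y i 0 0) * G⁻¹
    rw [← Matrix.add_mul, ← Matrix.mul_add, Matrix.diagonal_add]
  map_mul' x y := by
    funext i
    show G * Matrix.diagonal (fun i => (x i * y i) 0 0) * G⁻¹ =
      G * Matrix.diagonal (fun i => x i 0 0) * G⁻¹ * (G * Matrix.diagonal (fun i => y i 0 0) * G⁻¹)
    have h1 : (fun i => (x i * y i) 0 0) = fun i => x i 0 0 * y i 0 0 := by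
      funext i
      rw [Matrix.mul_apply, Fin.sum_univ_one]
    rw [h1, ← Matrix.diagonal_mul_diagonal]
    calc G * (Matrix.diagonal (fun i => x i 0 0) * Matrix.diagonal fun i => y i 0 0) * G⁻¹ =
        G * Matrix.diagonal (fun i => x i 0 0) * 1 * Matrix.diagonal (fun i => y i 0 0) * G⁻¹ := by
          rw [Matrix.mul_one]; simp only [Matrix.mul_assoc]
      _ = _ := by rw [← Matrix.nonsing_inv_mul G hG]; simp only [Matrix.mul_assoc]

/-- twisting by a permutation -/
noncomputable def rG (s : Fin 3 → Fin 3) : Rsd 3 1 KK →ₙ+* Rsd 3 1 KK where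
  toFun x := fun j => (x (s j)).map sg
  map_zero' := by
    funext j
    ext a b
    exact map_zero sg
  map_add' x y := by
    funext j
    ext a b
    exact map_add sg _ _
  map_mul' x y := by
    funext j
    exact Matrix.map_mul

noncomputable def rGT : Rsd 1 3 KK →ₙ+* Rsd 1 3 KK where
  toFun x := fun j => (x j).map sg
  map_zero' := by
    funext j
    ext a b
    exact map_zero sg
  map_add' x y := by
    funext j
    ext a b
    exact map_add sg _ _
  map_mul' x y := by
    funext j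
    exact Matrix.map_mul

noncomputable def rBM : Rsd 1 1 ℚ →ₙ+* Rsd 3 1 KK where
  toFun x := fun _ => (x 0).map (Rat.castHom KK)
  map_zero' := by
    funext j
    ext a b
    exact map_zero (Rat.castHom KK)
  map_add' x y := by
    funext j
    ext a b
    exact map_add (Rat.castHom KK) _ _
  map_mul' x y := by
    funext j
    exact Matrix.map_mul

theorem rG_rMT (hG : IsUnit G.det) (s : Equiv.Perm (Fin 3)) (hs : G.map sg = G.submatrix id s)
    (t : Fin 3 → Fin 3) (ht : ∀ j, s (t j) = j) (x : Rsd 3 1 KK) :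
    rGT (rMT G hG x) = rMT G hG (rG t x) := by
  funext i
  show (G * Matrix.diagonal (fun i => x i 0 0) * G⁻¹).map sg =
    G * Matrix.diagonal (fun j => sg (x (t j) 0 0)) * G⁻¹
  obtain ⟨R, hR⟩ : ∃ R, R = (G * Matrix.diagonal (fun i => x i 0 0) * G⁻¹).map sg := ⟨_, rfl⟩
  rw [← hR]
  have h1 : R * G.map sg = (G.map sg) * Matrix.diagonal (fun i => sg (x i 0 0)) := by
    rw [hR, ← Matrix.map_mul, Matrix.mul_assoc, Matrix.nonsing_inv_mul G hG, Matrix.mul_one,
      Matrix.map_mul]
    congr 1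
    ext a b
    rw [Matrix.map_apply, Matrix.diagonal_apply, Matrix.diagonal_apply]
    split_ifs
    · rfl
    · exact map_zero sg
  rw [hs] at h1
  have h2 : R * G = G * Matrix.diagonal (fun j => sg (x (t j) 0 0)) := by
    ext a b
    have h3 := congrFun (congrFun h1 a) (t b)
    rw [Matrix.mul_diagonal, Matrix.submatrix_apply, ht, Matrix.mul_apply] at h3
    rw [Matrix.mul_diagonal, Matrix.mul_apply]
    simp only [Matrix.submatrix_apply, ht, id] at h3
    exact h3
  calc R = R * (G * G⁻¹) := by rw [Matrix.mul_nonsing_inv G hG, Matrix.mul_one]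
    _ = _ := by rw [← Matrix.mul_assoc, h2]

theorem rMT_rBM (hG : IsUnit G.det) (x : Rsd 1 1 ℚ) :
    rMT G hG (rBM x) = fun _ => Matrix.diagonal (fun _ => ((x 0 0 0 : ℚ) : KK)) := by
  funext i
  show G * Matrix.diagonal (fun _ => ((x 0 0 0 : ℚ) : KK)) * G⁻¹ = _
  have h1 : Matrix.diagonal (fun _ : Fin 3 => ((x 0 0 0 : ℚ) : KK)) =
      ((x 0 0 0 : ℚ) : KK) • (1 : Matrix (Fin 3) (Fin 3) KK) := by
    rw [Matrix.smul_one_eq_diagonal]
  rw [h1, Matrix.mul_smul, Matrix.smul_mul, Matrix.mul_one, Matrix.mul_nonsing_inv G hG]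

theorem rG_rBM (t : Fin 3 → Fin 3) (x : Rsd 1 1 ℚ) : rG t (rBM x) = rBM x := by
  funext j
  ext a b
  show sg (Rat.castHom KK (x 0 a b)) = Rat.castHom KK (x 0 a b)
  exact map_ratCast sg _

/-- the effect on ranks -/
theorem rk_rMT (hG : IsUnit G.det) {k : ℕ} (E : Matrix (Fin k) (Fin k) (Rsd 3 1 KK))
    (hE : E * E = E) : rk k (E.map (rMT G hG)) = nMT (rk k E) := by
  apply rk_eq
  intro i
  show _ = ((rk k E 0 + rk k E 1 + rk k E 2 : ℕ) : KK)
  rw [Nat.cast_add, Nat.cast_add, rk_cast hE, rk_cast hE, rk_cast hE]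
  unfold tau
  rw [← Finset.sum_add_distrib, ← Finset.sum_add_distrib]
  apply Finset.sum_congr rfl
  intro a _
  show (G * Matrix.diagonal (fun i => E a a i 0 0) * G⁻¹).trace = _
  rw [Matrix.trace_mul_comm, ← Matrix.mul_assoc, Matrix.nonsing_inv_mul G hG, Matrix.one_mul,
    Matrix.trace_diagonal, Fin.sum_univ_three]
  simp only [Matrix.trace, Matrix.diag_apply, Fin.sum_univ_one]

theorem rk_rG (s : Fin 3 → Fin 3) {k : ℕ} (E : Matrix (Fin k) (Fin k) (Rsd 3 1 KK))
    (hE : E * E = E) : rk k (E.map (rG s)) = fun j => rk k E (s j) := by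
  apply rk_eq
  intro i
  have h1 : tau i (E.map (rG s)) = sg (tau (s i) E) := by
    unfold tau
    rw [map_sum]
    apply Finset.sum_congr rfl
    intro a _
    show ((E a a (s i)).map sg).trace = _
    exact (AddMonoidHom.map_trace sg.toAddMonoidHom _).symm
  rw [h1, ← rk_cast hE, map_natCast]

theorem rk_rGT {k : ℕ} (E : Matrix (Fin k) (Fin k) (Rsd 1 3 KK))
    (hE : E * E = E) : rk k (E.map rGT) = rk k E := by
  apply rk_eq
  intro i
  have h1 : tau i (E.map rGT) = sg (tau i E) := by
    unfold tau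
    rw [map_sum]
    apply Finset.sum_congr rfl
    intro a _
    show ((E a a i).map sg).trace = _
    exact (AddMonoidHom.map_trace sg.toAddMonoidHom _).symm
  rw [h1, ← rk_cast hE, map_natCast]

theorem rk_rBM {k : ℕ} (E : Matrix (Fin k) (Fin k) (Rsd 1 1 ℚ))
    (hE : E * E = E) : rk k (E.map rBM) = nBM (rk k E) := by
  apply rk_eq
  intro i
  show _ = ((rk k E 0 : ℕ) : KK)
  have h1 : tau i (E.map rBM) = Rat.castHom KK (tau 0 E) := by
    unfold tau
    rw [map_sum]
    apply Finset.sum_congr rfl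
    intro a _
    show ((E a a 0).map (Rat.castHom KK)).trace = _
    exact (AddMonoidHom.map_trace (Rat.castHom KK).toAddMonoidHom _).symm
  rw [h1, ← rk_cast hE, map_natCast]

end

end Pool.Agent.H494R3.LD
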