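import Pool.Agent.H494R3.LD.C4
import Pool.Agent.H494R3.LD.C5

set_option autoImplicit false

/-!
The diagram does not lift by C*-algebras of real rank zero.
-/

namespace Pool.Agent.H494R3.LD

section
variable {A : Type*} [NonUnitalCStarAlgebra A]

theorem Fr.map {B : Type*} [NonUnitalCStarAlgebra B] {E : A} {e : Fin 3 → A} (h : Fr E e)
    (f : A →⋆ₙₐ[ℂ] B) (hsc : ∀ i, Sc (f (e i))) (hne : ∀ i, f (e i) ≠ 0) :
    Fr (f E) (fun i => f (e i)) where
  p i := ⟨by rw [← map_mul, (h.p i).mul], by rw [← map_star, (h.p i).st]⟩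
  orth i j hij := by rw [← map_mul, h.orth i j hij, map_zero]
  sum := by rw [← map_sum, h.sum]
  sc := hsc
  ne := hne

theorem IsP.map {B : Type*} [NonUnitalCStarAlgebra B] {p : A} (h : IsP p) (f : A →⋆ₙₐ[ℂ] B) :
    IsP (f p) := ⟨by rw [← map_mul, h.mul], by rw [← map_star, h.st]⟩

theorem single_atom {s : ℕ} (i : Fin s) (m m' : Fin s → ℕ) (h : m + m' = Pi.single i 1) :
    m = 0 ∨ m' = 0 := by
  have h1 : ∀ j, m j + m' j = (Pi.single i 1 : Fin s → ℕ) j := fun j => congrFun h j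
  have h2 := h1 i
  rw [Pi.single_eq_same] at h2
  rcases Nat.eq_zero_or_pos (m i) with h3 | h3
  · left
    funext j
    by_cases hj : j = i
    · rw [hj, h3]; rfl
    · have := h1 j
      rw [Pi.single_eq_of_ne hj] at this
      show m j = 0
      omega
  · right
    funext j
    by_cases hj : j = i
    · rw [hj]
      show m' i = 0
      omega
    · have := h1 j
      rw [Pi.single_eq_of_ne hj] at this
      show m' j = 0
      omega

theorem single_ne {s : ℕ} (i : Fin s) : (Pi.single i 1 : Fin s → ℕ) ≠ 0 := by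
  intro h
  have := congrFun h i
  rw [Pi.single_eq_same] at this
  exact one_ne_zero this

/-- a projection of atomic class -/
theorem atom_facts {s : ℕ} {φ : ∀ k : ℕ, Matrix (Fin k) (Fin k) A → (Fin s → ℕ)}
    (hr : RealRankZero A) (h : IsVStar A (Fin s → ℕ) φ) {p : A} (hp : IsP p) (i : Fin s)
    (hc : cl φ p = Pi.single i 1) : Sc p ∧ p ≠ 0 := by
  refine ⟨atom_scalar hr h hp (fun m m' hm => single_atom i m m' (by rw [hm, hc])), ?_⟩
  intro h0
  rw [h0, cl_zero h] at hc
  exact single_ne i hc.symm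

theorem frame3 {φ : ∀ k : ℕ, Matrix (Fin k) (Fin k) A → (Fin 3 → ℕ)}
    (hr : RealRankZero A) (h : IsVStar A (Fin 3 → ℕ) φ) {E : A} (hE : IsP E)
    (hc : cl φ E = fun _ => 1) :
    ∃ e : Fin 3 → A, Fr E e ∧ ∀ i, cl φ (e i) = Pi.single i 1 := by
  have h1 : cl φ E = Pi.single 0 1 + (Pi.single 1 1 + Pi.single 2 1) := by
    rw [hc]
    funext j
    fin_cases j <;> rfl
  obtain ⟨p₁, q, hp1, hq, hs1, ho1, hc1, hcq⟩ := cl_split h hE h1
  obtain ⟨p₂, p₃, hp2, hp3, hs2, ho2, hc2, hc3⟩ := cl_split h hq hcq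
  have ho2' : p₃ * p₂ = 0 := by
    have := congrArg star ho2
    rwa [star_mul, hp2.st, hp3.st, star_zero] at this
  have hq2 : q * p₂ = p₂ := by rw [← hs2, add_mul, hp2.mul, ho2', add_zero]
  have hq3 : q * p₃ = p₃ := by rw [← hs2, add_mul, hp3.mul, ho2, zero_add]
  have o12 : p₁ * p₂ = 0 := by rw [← hq2, ← mul_assoc, ho1, zero_mul]
  have o13 : p₁ * p₃ = 0 := by rw [← hq3, ← mul_assoc, ho1, zero_mul]
  have o21 : p₂ * p₁ = 0 := by
    have := congrArg star o12
    rwa [star_mul, hp1.st, hp2.st, star_zero] at this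
  have o31 : p₃ * p₁ = 0 := by
    have := congrArg star o13
    rwa [star_mul, hp1.st, hp3.st, star_zero] at this
  have f1 := atom_facts hr h hp1 0 hc1
  have f2 := atom_facts hr h hp2 1 hc2
  have f3 := atom_facts hr h hp3 2 hc3
  refine ⟨![p₁, p₂, p₃], ⟨?_, ?_, ?_, ?_, ?_⟩, ?_⟩
  · intro i; fin_cases i
    · exact hp1
    · exact hp2
    · exact hp3
  · intro i j hij
    fin_cases i <;> fin_cases j
    · exact absurd rfl hij
    · exact o12
    · exact o13
    · exact o21
    · exact absurd rfl hij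
    · exact ho2
    · exact o31
    · exact ho2'
    · exact absurd rfl hij
  · rw [Fin.sum_univ_three]
    show p₁ + p₂ + p₃ = E
    rw [← hs1, ← hs2, add_assoc]
  · intro i; fin_cases i
    · exact f1.1
    · exact f2.1
    · exact f3.1
  · intro i; fin_cases i
    · exact f1.2
    · exact f2.2
    · exact f3.2
  · intro i; fin_cases i
    · exact hc1
    · exact hc2
    · exact hc3

end

/-! ### the transport along one edge pair -/

section
variable {A A' B : Type*} [NonUnitalCStarAlgebra A] [NonUnitalCStarAlgebra A']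
  [NonUnitalCStarAlgebra B]

/-- the transport `A → B ← A'` between corners -/
theorem edge (f : A →⋆ₙₐ[ℂ] B) (f' : A' →⋆ₙₐ[ℂ] B) {E : A} {E' : A'} (hE : f E = f' E')
    {e' : Fin 3 → A'} (hF : Fr E' e') (hl : ∀ i j, Lk (e' i) (e' j))
    (hFB : Fr (f' E') (fun i => f' (e' i))) :
    ∃ t : A → A', CHom E E' t ∧ ∀ (x : A) (x' : A'), Cn E x → Cn E' x' → f x = f' x' →
      t x = x' := by
  obtain ⟨t, ht, h⟩ := step f f' hE (fun x hx h0 => bij_inj hF hl f' hFB.ne hx h0)
    (fun y hy => bij_surj hF hl f' hFB hy)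
  refine ⟨t, ht, fun x x' hx hx' hxx => ?_⟩
  have h1 : Cn E' (t x - x') :=
    ⟨by rw [mul_sub, (ht.mem x hx).1, hx'.1], by rw [sub_mul, (ht.mem x hx).2, hx'.2]⟩
  exact sub_eq_zero.1 (bij_inj hF hl f' hFB.ne h1 (by rw [map_sub, h x hx, hxx, sub_self]))

end

end Pool.Agent.H494R3.LD
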